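import Mathlib

/-!
# Pairs of integer polynomials with small values at the roots of unity of prime order
-/

set_option autoImplicit false

open Polynomial

namespace Pool.Agent.Y730.RD

/-- a polynomial with `P(X³) = P(X)³` is a monomial with coefficient `±1` -/
theorem mono_of_expand (P : ℤ[X]) (hP : P ≠ 0) (h : expand ℤ 3 P = P ^ 3) :
    ∃ j : ℕ, P = X ^ j ∨ P = -X ^ j := by
  obtain ⟨Q, hQ, hnd⟩ := exists_eq_pow_rootMultiplicity_mul_and_not_dvd P hP 0
  rw [C_0, sub_zero] at hQ hnd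
  set j := P.rootMultiplicity 0
  have hQ0 : Q ≠ 0 := by
    rintro rfl
    exact hnd (dvd_zero _)
  have hc0 : Q.coeff 0 ≠ 0 := fun h0 => hnd (X_dvd_iff.2 h0)
  have hQe : expand ℤ 3 Q = Q ^ 3 := by
    have h1 : (X : ℤ[X]) ^ (3 * j) ≠ 0 := pow_ne_zero _ X_ne_zero
    apply mul_left_cancel₀ h1
    calc (X : ℤ[X]) ^ (3 * j) * expand ℤ 3 Q = expand ℤ 3 (X ^ j * Q) := by
          rw [map_mul, map_pow, expand_X, ← pow_mul]
      _ = (X ^ j * Q) ^ 3 := by rw [← hQ, h]
      _ = _ := by rw [mul_pow, ← pow_mul, mul_comm j 3]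
  -- the derivative vanishes
  have hder : derivative Q = 0 := by
    by_contra hne
    have h1 := congrArg derivative hQe
    rw [derivative_expand, derivative_pow] at h1
    have h2 : Q ^ 2 * derivative Q = X ^ 2 * expand ℤ 3 (derivative Q) := by
      have h3 : (3 : ℤ[X]) ≠ 0 := by norm_num
      apply mul_left_cancel₀ h3
      have h4 : (C ((3 : ℕ) : ℤ) : ℤ[X]) = 3 := by simp
      rw [h4] at h1
      push_cast at h1
      linear_combination -h1
    have h5 : (Q ^ 2).natTrailingDegree = 0 := by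
      rw [natTrailingDegree_eq_zero]
      right
      rw [coeff_zero_eq_eval_zero, eval_pow, ← coeff_zero_eq_eval_zero]
      exact pow_ne_zero _ hc0
    have h6 := coeff_mul_natTrailingDegree_add_natTrailingDegree (p := Q ^ 2) (q := derivative Q)
    rw [h5, zero_add, h2] at h6
    have h7 : (Q ^ 2).trailingCoeff * (derivative Q).trailingCoeff ≠ 0 := by
      apply mul_ne_zero
      · rw [Ne, trailingCoeff_eq_zero]; exact pow_ne_zero _ hQ0
      · rw [Ne, trailingCoeff_eq_zero]; exact hne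
    rw [← h6] at h7
    apply h7
    set v := (derivative Q).natTrailingDegree
    rcases lt_or_ge v 2 with hv | hv
    · rw [coeff_X_pow_mul', if_neg (by omega)]
    · rw [coeff_X_pow_mul', if_pos hv, coeff_expand (by norm_num)]
      split_ifs with hd
      · apply coeff_eq_zero_of_lt_natTrailingDegree
        show (v - 2) / 3 < v
        omega
      · rfl
  have hdeg := derivative_eq_zero.1 hder
  obtain ⟨q, hq⟩ := natDegree_eq_zero.1 hdeg
  rw [← hq, expand_C, ← C_pow] at hQe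
  have hq3 : q = q ^ 3 := C_injective hQe
  have hq0 : q ≠ 0 := by
    rintro rfl
    apply hQ0
    rw [← hq, C_0]
  have hq2 : q ^ 2 = 1 := by
    apply mul_left_cancel₀ hq0
    linarith
  refine ⟨j, ?_⟩
  have hq4 : q = 1 ∨ q = -1 := by
    have h5 : (q - 1) * (q + 1) = 0 := by linear_combination hq2
    rcases mul_eq_zero.1 h5 with h6 | h6
    · left; linarith
    · right; linarith
  rcases hq4 with h1 | h1
  · left; rw [hQ, ← hq, h1, C_1, mul_one]
  · right; rw [hQ, ← hq, h1]; simp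

theorem expand_eq_pow (P₀ P₁ : ℤ[X]) (h0 : P₀ ≠ 0) (hrel : IsRelPrime P₀ P₁)
    (h : P₀ ^ 3 * expand ℤ 3 P₁ = P₁ ^ 3 * expand ℤ 3 P₀) : expand ℤ 3 P₀ = P₀ ^ 3 := by
  have h1 : P₀ ^ 3 ∣ P₁ ^ 3 * expand ℤ 3 P₀ := by
    rw [← h]; exact Dvd.intro _ rfl
  have h2 : IsRelPrime (P₀ ^ 3) (P₁ ^ 3) := hrel.pow
  obtain ⟨c, hc⟩ := h2.dvd_of_dvd_mul_left h1
  have h3 : c ≠ 0 := by
    rintro rfl
    rw [mul_zero] at hc
    exact h0 ((expand_eq_zero (by norm_num)).1 hc)
  have h4 : c.natDegree = 0 := by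
    have := congrArg natDegree hc
    rw [natDegree_expand, natDegree_mul (pow_ne_zero _ h0) h3, natDegree_pow] at this
    omega
  obtain ⟨q, hq⟩ := natDegree_eq_zero.1 h4
  have h5 := congrArg leadingCoeff hc
  rw [leadingCoeff_expand (by norm_num), leadingCoeff_mul, leadingCoeff_pow, ← hq,
    leadingCoeff_C] at h5
  have hl : P₀.leadingCoeff ≠ 0 := leadingCoeff_ne_zero.2 h0
  have h6 : P₀.leadingCoeff ^ 2 * q = 1 := by
    apply mul_left_cancel₀ hl
    linarith
  have h7 : q = 1 := by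
    have h8 : IsUnit q := IsUnit.of_mul_eq_one_right _ h6
    rcases Int.isUnit_iff.1 h8 with h9 | h9
    · exact h9
    · exfalso
      rw [h9] at h6
      nlinarith [sq_nonneg P₀.leadingCoeff]
  rw [hc, ← hq, h7, C_1, mul_one]

/-- the product of the values at the primitive roots of unity is at least one -/
theorem one_le_prod {s : ℕ} (hs : s.Prime) (G : ℤ[X]) (hG : G ≠ 0) (hdeg : G.natDegree < s - 1) :
    1 ≤ ∏ z ∈ primitiveRoots s ℂ, ‖aeval z G‖ := by
  have hs0 : 0 < s := hs.pos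
  have : NeZero (s : ℂ) := ⟨by exact_mod_cast hs.ne_zero⟩
  have h1 := resultant_eq_prod_eval (cyclotomic s ℂ) (G.map (Int.castRingHom ℂ)) G.natDegree
    natDegree_map_le (IsAlgClosed.splits _)
  have h2 : resultant (cyclotomic s ℂ) (G.map (Int.castRingHom ℂ)) (cyclotomic s ℂ).natDegree
      G.natDegree = ((resultant (cyclotomic s ℤ) G (cyclotomic s ℂ).natDegree G.natDegree : ℤ) : ℂ) := by
    rw [← map_cyclotomic_int s ℂ, resultant_map_map]
    rfl
  rw [h2, (cyclotomic.monic s ℂ).leadingCoeff, one_pow, one_mul,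
    cyclotomic.roots_eq_primitiveRoots_val] at h1
  have h3 : (Multiset.map (fun x => eval x (G.map (Int.castRingHom ℂ)))
      (primitiveRoots s ℂ).val).prod = ∏ z ∈ primitiveRoots s ℂ, aeval z G := by
    rw [Finset.prod]
    congr 1
    refine Multiset.map_congr rfl fun z _ => ?_
    rw [eval_map, aeval_def]
    rfl
  have h4 : ∏ z ∈ primitiveRoots s ℂ, aeval z G ≠ 0 := by
    rw [Finset.prod_ne_zero_iff]
    intro z hz h0
    have hz' : IsPrimitiveRoot z s := (mem_primitiveRoots hs0).1 hz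
    have h5 : cyclotomic s ℤ ∣ G := by
      rw [cyclotomic_eq_minpoly hz' hs0]
      exact minpoly.isIntegrallyClosed_dvd (hz'.isIntegral hs0) h0
    have h6 := natDegree_le_of_dvd h5 hG
    rw [natDegree_cyclotomic, Nat.totient_prime hs] at h6
    omega
  rw [← norm_prod, ← h3]
  have h7 : (Multiset.map (fun x => eval x (G.map (Int.castRingHom ℂ)))
      (primitiveRoots s ℂ).val).prod =
      ((resultant (cyclotomic s ℤ) G (cyclotomic s ℂ).natDegree G.natDegree : ℤ) : ℂ) := h1.symm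
  rw [h7, Complex.norm_intCast]
  have h8 : resultant (cyclotomic s ℤ) G (cyclotomic s ℂ).natDegree G.natDegree ≠ 0 := by
    intro h
    rw [h] at h7
    rw [h3] at h7
    exact h4 (by simpa using h7)
  exact_mod_cast Int.one_le_abs h8

/-- sizes at the roots of unity -/
noncomputable def mx (P₀ P₁ : ℤ[X]) (z : ℂ) : ℝ := max ‖aeval z P₀‖ ‖aeval z P₁‖

lemma mx_nonneg (P₀ P₁ : ℤ[X]) (z : ℂ) : 0 ≤ mx P₀ P₁ z := le_max_of_le_left (norm_nonneg _)

/-- the primitive roots of unity of prime order -/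
lemma primitiveRoots_eq {s : ℕ} (hs : s.Prime) (ζ : ℂ) (hζ : IsPrimitiveRoot ζ s) :
    primitiveRoots s ℂ = (Finset.univ.filter fun i : Fin s => (i : ℕ) ≠ 0).image
      (fun i : Fin s => ζ ^ (i : ℕ)) := by
  have : NeZero s := ⟨hs.ne_zero⟩
  ext z
  rw [mem_primitiveRoots hs.pos, Finset.mem_image]
  constructor
  · intro hz
    obtain ⟨i, hi, hiz⟩ := hζ.eq_pow_of_pow_eq_one hz.pow_eq_one
    refine ⟨⟨i, hi⟩, ?_, hiz⟩
    rw [Finset.mem_filter]
    refine ⟨Finset.mem_univ _, ?_⟩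
    rintro h0
    simp only at h0
    rw [h0, pow_zero] at hiz
    rw [← hiz] at hz
    have := hz.unique IsPrimitiveRoot.one
    exact hs.one_lt.ne' this
  · rintro ⟨i, hi, rfl⟩
    rw [Finset.mem_filter] at hi
    apply hζ.pow_of_coprime
    rw [Nat.coprime_comm]
    rw [Nat.Prime.coprime_iff_not_dvd hs]
    intro hd
    have := Nat.le_of_dvd (Nat.pos_of_ne_zero hi.2) hd
    have := i.2
    omega

/-- **The end of the argument.** -/
theorem poly_end {s : ℕ} (hs : s.Prime) (hs3 : 3 < s) (P₀ P₁ : ℤ[X]) (h0 : P₀ ≠ 0) (h1 : P₁ ≠ 0)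
    (hrel : IsRelPrime P₀ P₁) (ζ : ℂ) (hζ : IsPrimitiveRoot ζ s)
    (hdeg : 6 * max P₀.natDegree P₁.natDegree < s - 1)
    (hM : 2 ^ (s - 1) * (∏ i : Fin s, mx P₀ P₁ (ζ ^ (i : ℕ))) ^ 4 < 3 ^ (s - 1)) :
    (∃ i : ℕ, P₀ = X ^ i ∨ P₀ = -X ^ i) ∧ (∃ j : ℕ, P₁ = X ^ j ∨ P₁ = -X ^ j) := by
  set G : ℤ[X] := P₀ ^ 3 * expand ℤ 3 P₁ - P₁ ^ 3 * expand ℤ 3 P₀ with hG
  have hle0 : P₀.natDegree ≤ max P₀.natDegree P₁.natDegree := le_max_left _ _
  have hle1 : P₁.natDegree ≤ max P₀.natDegree P₁.natDegree := le_max_right _ _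
  have hG0 : G = 0 := by
    by_contra hne
    -- divisibility by three
    have hmod : G.map (Int.castRingHom (ZMod 3)) = 0 := by
      rw [hG, Polynomial.map_sub, Polynomial.map_mul, Polynomial.map_mul, Polynomial.map_pow,
        Polynomial.map_pow, map_expand, map_expand, ZMod.expand_card, ZMod.expand_card]
      ring
    have hdvd : C (3 : ℤ) ∣ G := by
      rw [C_dvd_iff_dvd_coeff]
      intro i
      have h2 := congrArg (fun f => coeff f i) hmod
      simp only [coeff_map, coeff_zero] at h2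
      exact (ZMod.intCast_zmod_eq_zero_iff_dvd _ 3).1 (by simpa using h2)
    obtain ⟨G₁, hG₁⟩ := hdvd
    have hG₁0 : G₁ ≠ 0 := by
      rintro rfl
      rw [mul_zero] at hG₁
      exact hne hG₁
    have hdegG : G.natDegree ≤ 6 * max P₀.natDegree P₁.natDegree := by
      rw [hG]
      refine (natDegree_sub_le _ _).trans (max_le ?_ ?_)
      · refine natDegree_mul_le.trans ?_
        rw [natDegree_expand]
        have := natDegree_pow_le (p := P₀) (n := 3)
        omega
      · refine natDegree_mul_le.trans ?_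
        rw [natDegree_expand]
        have := natDegree_pow_le (p := P₁) (n := 3)
        omega
    have hdegG₁ : G₁.natDegree < s - 1 := by
      have : G.natDegree = G₁.natDegree := by
        rw [hG₁, natDegree_C_mul (by norm_num)]
      omega
    have h2 := one_le_prod hs G₁ hG₁0 hdegG₁
    -- upper bound
    have h3 : ∀ z ∈ primitiveRoots s ℂ, ‖aeval z G₁‖ ≤
        (2 / 3) * (mx P₀ P₁ z ^ 3 * mx P₀ P₁ (z ^ 3)) := by
      intro z _
      have h4 : aeval z G = 3 * aeval z G₁ := by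
        rw [hG₁, map_mul, aeval_C]
        simp
      have h5 : aeval z G = aeval z P₀ ^ 3 * aeval (z ^ 3) P₁ - aeval z P₁ ^ 3 * aeval (z ^ 3) P₀ := by
        rw [hG, map_sub, map_mul, map_mul, map_pow, map_pow, expand_aeval, expand_aeval]
      have h6 : ‖aeval z G‖ ≤ 2 * (mx P₀ P₁ z ^ 3 * mx P₀ P₁ (z ^ 3)) := by
        rw [h5]
        refine (norm_sub_le _ _).trans ?_
        rw [norm_mul, norm_mul, norm_pow, norm_pow]
        have h7 : ‖aeval z P₀‖ ^ 3 * ‖aeval (z ^ 3) P₁‖ ≤ mx P₀ P₁ z ^ 3 * mx P₀ P₁ (z ^ 3) :=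
          mul_le_mul (pow_le_pow_left₀ (norm_nonneg _) (le_max_left _ _) 3) (le_max_right _ _)
            (norm_nonneg _) (pow_nonneg (mx_nonneg _ _ _) 3)
        have h8 : ‖aeval z P₁‖ ^ 3 * ‖aeval (z ^ 3) P₀‖ ≤ mx P₀ P₁ z ^ 3 * mx P₀ P₁ (z ^ 3) :=
          mul_le_mul (pow_le_pow_left₀ (norm_nonneg _) (le_max_right _ _) 3) (le_max_left _ _)
            (norm_nonneg _) (pow_nonneg (mx_nonneg _ _ _) 3)
        linarith
      rw [h4, norm_mul] at h6
      have h9 : ‖(3 : ℂ)‖ = 3 := by norm_num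
      rw [h9] at h6
      linarith
    have h4 : ∏ z ∈ primitiveRoots s ℂ, ‖aeval z G₁‖ ≤
        ∏ z ∈ primitiveRoots s ℂ, ((2 / 3) * (mx P₀ P₁ z ^ 3 * mx P₀ P₁ (z ^ 3))) :=
      Finset.prod_le_prod (fun _ _ => norm_nonneg _) h3
    -- the product over the cubes
    have h5 : ∏ z ∈ primitiveRoots s ℂ, mx P₀ P₁ (z ^ 3) = ∏ z ∈ primitiveRoots s ℂ, mx P₀ P₁ z := by
      have hcop : Nat.Coprime 3 s := by
        rw [Nat.coprime_primes Nat.prime_three hs]
        omega
      obtain ⟨u, -, hu⟩ := Nat.exists_mul_mod_eq_one_of_coprime hcop hs.one_lt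
      have hucop : Nat.Coprime u s := by
        rw [Nat.coprime_comm, Nat.Prime.coprime_iff_not_dvd hs]
        intro hd
        have : 3 * u % s = 0 := Nat.mod_eq_zero_of_dvd (Dvd.dvd.mul_left hd 3)
        omega
      have hpow : ∀ z ∈ primitiveRoots s ℂ, z ^ (3 * u) = z := by
        intro z hz
        have hz' := ((mem_primitiveRoots hs.pos).1 hz).pow_eq_one
        rw [← Nat.div_add_mod (3 * u) s, hu, pow_add, pow_mul, hz', one_pow, pow_one, one_mul]
      refine Finset.prod_nbij' (fun z => z ^ 3) (fun z => z ^ u) ?_ ?_ ?_ ?_ ?_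
      · intro z hz
        rw [mem_primitiveRoots hs.pos] at hz ⊢
        exact hz.pow_of_coprime 3 hcop
      · intro z hz
        rw [mem_primitiveRoots hs.pos] at hz ⊢
        exact hz.pow_of_coprime u hucop
      · intro z hz
        rw [← pow_mul]
        exact hpow z hz
      · intro z hz
        rw [← pow_mul, mul_comm]
        exact hpow z hz
      · intro z _
        rfl
    have hcardp : (primitiveRoots s ℂ).card = s - 1 := by
      rw [hζ.card_primitiveRoots, Nat.totient_prime hs]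
    rw [Finset.prod_mul_distrib, Finset.prod_mul_distrib, Finset.prod_const, hcardp,
      Finset.prod_pow, h5] at h4
    set M' := ∏ z ∈ primitiveRoots s ℂ, mx P₀ P₁ z with hM'
    have hM'0 : 0 ≤ M' := Finset.prod_nonneg fun _ _ => mx_nonneg _ _ _
    -- comparison with the product over all roots of unity
    have h6 : M' ≤ ∏ i : Fin s, mx P₀ P₁ (ζ ^ (i : ℕ)) := by
      rw [hM', primitiveRoots_eq hs ζ hζ, Finset.prod_image]
      · rw [← Finset.prod_filter_mul_prod_filter_not Finset.univ (fun i : Fin s => (i : ℕ) ≠ 0)]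
        refine le_mul_of_one_le_right (Finset.prod_nonneg fun _ _ => mx_nonneg _ _ _) ?_
        have h7 : ∀ i ∈ Finset.univ.filter (fun i : Fin s => ¬ (i : ℕ) ≠ 0),
            1 ≤ mx P₀ P₁ (ζ ^ (i : ℕ)) := by
          intro i hi
          rw [Finset.mem_filter, not_not] at hi
          rw [hi.2, pow_zero]
          by_contra hlt
          push Not at hlt
          have h8 : ∀ P : ℤ[X], ‖aeval (1 : ℂ) P‖ < 1 → X - C 1 ∣ P := by
            intro P hP
            have h9 : aeval (1 : ℂ) P = ((P.eval 1 : ℤ) : ℂ) := by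
              have := aeval_algebraMap_apply ℂ (1 : ℤ) P
              simpa using this
            rw [h9, Complex.norm_intCast] at hP
            rw [dvd_iff_isRoot, IsRoot.def]
            have h10 : |P.eval 1| < 1 := by exact_mod_cast hP
            exact Int.abs_lt_one_iff.1 h10
          have h11 := h8 P₀ (lt_of_le_of_lt (le_max_left _ _) hlt)
          have h12 := h8 P₁ (lt_of_le_of_lt (le_max_right _ _) hlt)
          have h13 := hrel h11 h12
          have h14 := natDegree_eq_zero_of_isUnit h13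
          rw [natDegree_X_sub_C] at h14
          omega
        calc (1 : ℝ) = ∏ _i ∈ Finset.univ.filter (fun i : Fin s => ¬ (i : ℕ) ≠ 0), (1 : ℝ) := by
              rw [Finset.prod_const_one]
          _ ≤ _ := Finset.prod_le_prod (fun _ _ => zero_le_one) h7
      · intro i _ j _ hij
        exact Fin.ext (hζ.pow_inj i.2 j.2 hij)
    have h7 : (1 : ℝ) ≤ (2 / 3) ^ (s - 1) * M' ^ 4 := by
      calc (1 : ℝ) ≤ _ := h2
        _ ≤ _ := h4
        _ = _ := by ring
    have h8 : (3 : ℝ) ^ (s - 1) ≤ 2 ^ (s - 1) * M' ^ 4 := by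
      rw [div_pow] at h7
      have h9 : (0 : ℝ) < 3 ^ (s - 1) := by positivity
      calc (3 : ℝ) ^ (s - 1) = 3 ^ (s - 1) * 1 := by ring
        _ ≤ 3 ^ (s - 1) * (2 ^ (s - 1) / 3 ^ (s - 1) * M' ^ 4) :=
            mul_le_mul_of_nonneg_left h7 h9.le
        _ = _ := by field_simp
    have h9 : M' ^ 4 ≤ (∏ i : Fin s, mx P₀ P₁ (ζ ^ (i : ℕ))) ^ 4 := pow_le_pow_left₀ hM'0 h6 4
    have h10 : (2 : ℝ) ^ (s - 1) * M' ^ 4 ≤
        2 ^ (s - 1) * (∏ i : Fin s, mx P₀ P₁ (ζ ^ (i : ℕ))) ^ 4 :=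
      mul_le_mul_of_nonneg_left h9 (by positivity)
    linarith
  have hE : P₀ ^ 3 * expand ℤ 3 P₁ = P₁ ^ 3 * expand ℤ 3 P₀ := sub_eq_zero.1 (hG ▸ hG0)
  exact ⟨mono_of_expand P₀ h0 (expand_eq_pow P₀ P₁ h0 hrel hE),
    mono_of_expand P₁ h1 (expand_eq_pow P₁ P₀ h1 hrel.symm hE.symm)⟩

end Pool.Agent.Y730.RD
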