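import Mathlib

/-!
# A lower bound for the determinant of the conjugates of elements of an ideal
-/

set_option autoImplicit false

open NumberField Module

namespace Pool.Agent.Y730.RD

variable {K : Type*} [Field K] [NumberField K]

/-- the matrix of the conjugates of the elements `η j`, rows indexed by the embeddings -/
noncomputable def conjMat {ι κ : Type*} (e : ι → (K →+* ℂ)) (η : κ → 𝓞 K) : Matrix ι κ ℂ :=
  Matrix.of fun i j => e i (η j)

lemma conjMat_basis {ι : Type*} [Fintype ι] [DecidableEq ι] (e : ι ≃ (K →+* ℂ))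
    (b : Basis ι ℤ (𝓞 K)) : ‖(conjMat e b).det‖ ^ 2 = |(discr K : ℝ)| := by
  have h1 := Algebra.discr_eq_det_embeddingsMatrixReindex_pow_two ℚ ℂ
    (b.localizationLocalization ℚ (nonZeroDivisors ℤ) K)
    (e.trans (RingHom.equivRatAlgHom K ℂ))
  rw [Algebra.discr_localizationLocalization, discr_eq_discr] at h1
  have h2 : Algebra.embeddingsMatrixReindex ℚ ℂ
      (b.localizationLocalization ℚ (nonZeroDivisors ℤ) K)
      (e.trans (RingHom.equivRatAlgHom K ℂ)) = (conjMat e b).transpose := by
    ext i j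
    simp [Algebra.embeddingsMatrixReindex, conjMat, Algebra.embeddingsMatrix]
  rw [h2, Matrix.det_transpose] at h1
  rw [← norm_pow, ← h1]
  simp

/-- lower bound for the determinant of the conjugates of independent elements of an ideal -/
theorem det_lower {ι : Type*} [Fintype ι] [DecidableEq ι] (e : ι ≃ (K →+* ℂ))
    (I : Ideal (𝓞 K)) (η : ι → 𝓞 K) (hη : ∀ i, η i ∈ I)
    (hli : LinearIndependent ℤ η) :
    (I.absNorm : ℝ) ^ 2 * |(discr K : ℝ)| ≤ ‖(conjMat e η).det‖ ^ 2 := by
  classical
  by_cases hn : IsEmpty ι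
  · exfalso
    have h1 : Fintype.card ι = Fintype.card (K →+* ℂ) := Fintype.card_congr e
    have h2 := Embeddings.card K ℂ
    have h3 : 0 < Module.finrank ℚ K := Module.finrank_pos
    rw [Fintype.card_eq_zero] at h1
    omega
  rw [not_isEmpty_iff] at hn
  have hI : I ≠ ⊥ := by
    intro h
    obtain ⟨i⟩ := hn
    have h1 := hη i
    rw [h, Ideal.mem_bot] at h1
    exact hli.ne_zero i h1
  have hcard : Fintype.card (Free.ChooseBasisIndex ℤ (𝓞 K)) = Fintype.card ι := by
    rw [← Module.finrank_eq_card_chooseBasisIndex, RingOfIntegers.rank, Fintype.card_congr e,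
      Embeddings.card]
  let b : Basis ι ℤ (𝓞 K) := (RingOfIntegers.basis K).reindex (Fintype.equivOfCardEq hcard)
  let bI := Ideal.selfBasis b I hI
  -- coordinates of `η` in `b`
  let C : Matrix ι ι ℤ := b.toMatrix η
  have hC : conjMat e η = conjMat e b * C.map (Int.cast : ℤ → ℂ) := by
    ext i j
    rw [Matrix.mul_apply]
    simp only [conjMat, Matrix.of_apply, Matrix.map_apply]
    have h1 : η j = ∑ k, C k j • b k := (b.sum_toMatrix_smul_self η j).symm
    conv_lhs => rw [h1]
    simp only [map_sum, zsmul_eq_mul, map_mul, map_intCast]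
    exact Finset.sum_congr rfl fun k _ => mul_comm _ _
  have hdet : (conjMat e η).det = (conjMat e b).det * (C.det : ℂ) := by
    rw [hC, Matrix.det_mul]
    congr 1
    rw [Int.cast_det]
  -- coordinates of `η` in `bI`
  let E : Matrix ι ι ℤ := bI.toMatrix (fun j => (⟨η j, hη j⟩ : I))
  have hE : C = b.toMatrix ((↑) ∘ bI) * E := by
    ext i j
    rw [Matrix.mul_apply]
    have h1 : (⟨η j, hη j⟩ : I) = ∑ k, E k j • bI k :=
      (bI.sum_toMatrix_smul_self (fun j => (⟨η j, hη j⟩ : I)) j).symm
    have h2 : η j = ∑ k, E k j • ((bI k : I) : 𝓞 K) := by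
      have := congrArg (Subtype.val) h1
      simpa using this
    show b.repr (η j) i = _
    rw [h2, map_sum, Finsupp.finsetSum_apply]
    refine Finset.sum_congr rfl fun k _ => ?_
    rw [map_smul, Finsupp.smul_apply, smul_eq_mul, mul_comm]
    rfl
  have hCdet : C.det = b.det ((↑) ∘ bI) * E.det := by
    rw [hE, Matrix.det_mul]
    rfl
  have hC0 : C.det ≠ 0 := by
    intro h0
    obtain ⟨v, hv, hCv⟩ := Matrix.exists_mulVec_eq_zero_iff.2 h0
    rw [Fintype.linearIndependent_iff] at hli
    have h1 : ∑ j, v j • η j = 0 := by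
      apply b.repr.injective
      ext i
      rw [map_zero, Finsupp.zero_apply, map_sum, Finsupp.finsetSum_apply]
      have := congrFun hCv i
      rw [Matrix.mulVec, dotProduct] at this
      rw [Pi.zero_apply] at this
      rw [← this]
      refine Finset.sum_congr rfl fun k _ => ?_
      rw [map_smul, Finsupp.smul_apply, smul_eq_mul, mul_comm]
      rfl
    exact hv (funext fun j => hli v h1 j)
  have hE0 : E.det ≠ 0 := by
    intro h0
    exact hC0 (by rw [hCdet, h0, mul_zero])
  have h3 : (I.absNorm : ℝ) ≤ |(C.det : ℝ)| := by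
    rw [hCdet, Int.cast_mul, abs_mul, ← Ideal.natAbs_det_basis_change b I bI]
    rw [Nat.cast_natAbs, Int.cast_abs]
    have h4 : (1 : ℝ) ≤ |(E.det : ℝ)| := by exact_mod_cast Int.one_le_abs hE0
    nlinarith [abs_nonneg ((b.det ((↑) ∘ bI) : ℤ) : ℝ)]
  rw [hdet, norm_mul, mul_pow, conjMat_basis e b, mul_comm]
  refine mul_le_mul_of_nonneg_left ?_ (abs_nonneg _)
  rw [Complex.norm_intCast]
  exact pow_le_pow_left₀ (Nat.cast_nonneg _) h3 2

end Pool.Agent.Y730.RD
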