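import Mathlib
import Pool.Agent.W349.CV.Had

/-!
# Hadamard's inequality by rows
-/

set_option autoImplicit false

open Finset
open scoped ComplexOrder Matrix

namespace Pool.Agent.Y730.RD

theorem hadamard_fin {N : ℕ} (W : Matrix (Fin N) (Fin N) ℂ) :
    ‖W.det‖ ^ 2 ≤ ∏ i, ∑ j, ‖W i j‖ ^ 2 := by
  have hps : (W * Wᴴ).PosSemidef := Matrix.posSemidef_self_mul_conjTranspose W
  have h1 := Pool.Agent.W349.CV.had N (W * Wᴴ) hps
  have h2 : (W * Wᴴ).det.re = ‖W.det‖ ^ 2 := by
    rw [Matrix.det_mul, Matrix.det_conjTranspose, RCLike.star_def, Complex.mul_conj,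
      Complex.ofReal_re, Complex.normSq_eq_norm_sq]
  rw [h2] at h1
  refine h1.trans (le_of_eq ?_)
  refine Finset.prod_congr rfl fun i _ => ?_
  rw [Matrix.mul_apply, Complex.re_sum]
  refine Finset.sum_congr rfl fun j _ => ?_
  rw [Matrix.conjTranspose_apply, RCLike.star_def, Complex.mul_conj, Complex.ofReal_re,
    Complex.normSq_eq_norm_sq]

/-- Hadamard's inequality by rows -/
theorem hadamard {ι : Type*} [Fintype ι] [DecidableEq ι] (W : Matrix ι ι ℂ) :
    ‖W.det‖ ^ 2 ≤ ∏ i, ∑ j, ‖W i j‖ ^ 2 := by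
  have e := Fintype.equivFin ι
  have h := hadamard_fin (W.submatrix e.symm e.symm)
  rw [Matrix.det_submatrix_equiv_self] at h
  refine h.trans (le_of_eq ?_)
  rw [← Equiv.prod_comp e]
  refine Finset.prod_congr rfl fun i _ => ?_
  rw [← Equiv.sum_comp e]
  simp

end Pool.Agent.Y730.RD
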