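import Mathlib

/-!
# The height of a quotient of two integers of a number field
-/

set_option autoImplicit false

open NumberField Height

namespace Pool.Agent.Y730.RD

variable {K : Type*} [Field K] [NumberField K]

/-- product over embeddings versus product over infinite places -/
lemma prod_embeddings (f : InfinitePlace K → ℝ) :
    ∏ σ : K →+* ℂ, f (InfinitePlace.mk σ) = ∏ v : InfinitePlace K, f v ^ v.mult := by
  classical
  rw [← Finset.prod_fiberwise_of_maps_to (s := (Finset.univ : Finset (K →+* ℂ)))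
    (t := (Finset.univ : Finset (InfinitePlace K))) (g := InfinitePlace.mk)
    (fun _ _ => Finset.mem_univ _)]
  refine Finset.prod_congr rfl fun v _ => ?_
  rw [Finset.prod_congr rfl (g := fun _ => f v), Finset.prod_const]
  · congr 1
    exact InfinitePlace.card_filter_mk_eq v
  · intro σ hσ
    rw [Finset.mem_filter] at hσ
    rw [hσ.2]

/-- the height of `x / y` in terms of the embeddings and the ideal generated by `x` and `y` -/
theorem prod_max_eq (x y : 𝓞 K) (hy : y ≠ 0) :
    ∏ σ : K →+* ℂ, max ‖σ x‖ ‖σ y‖ =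
      (Ideal.span {x, y} : Ideal (𝓞 K)).absNorm * mulHeight₁ ((x : K) / (y : K)) := by
  have hy' : (y : K) ≠ 0 := by exact_mod_cast hy
  have hne : (![x, y] : Fin 2 → 𝓞 K) ≠ 0 := by
    intro h
    exact hy (by simpa using congrFun h 1)
  have hne' : (![(x : K), (y : K)] : Fin 2 → K) ≠ 0 := by
    intro h
    exact hy' (by simpa using congrFun h 1)
  have h1 := absNorm_mul_finprod_finitePlace_eq_one hne
  have h2 : mulHeight₁ ((x : K) / (y : K)) = mulHeight ![(x : K), (y : K)] := by
    exact mulHeight₁_div_eq_mulHeight (x : K) (y : K)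
  rw [h2, NumberField.mulHeight_eq hne']
  have h3 : (Set.range ![x, y]) = {x, y} := by
    ext z
    simp [Matrix.range_cons]
    tauto
  rw [h3] at h1
  have h4 : ∀ v : FinitePlace K, (⨆ i, v ((![x, y] : Fin 2 → 𝓞 K) i : K)) =
      ⨆ i, v ((![(x : K), (y : K)] : Fin 2 → K) i) := by
    intro v
    congr 1
    funext i
    fin_cases i <;> rfl
  simp_rw [h4] at h1
  have h5 : ∏ σ : K →+* ℂ, max ‖σ x‖ ‖σ y‖ =
      ∏ v : InfinitePlace K, (⨆ i, v ((![(x : K), (y : K)] : Fin 2 → K) i)) ^ v.mult := by
    rw [← prod_embeddings (fun v => ⨆ i, v ((![(x : K), (y : K)] : Fin 2 → K) i))]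
    refine Finset.prod_congr rfl fun σ _ => ?_
    apply le_antisymm
    · apply max_le
      · exact le_ciSup_of_le (Set.finite_range _).bddAbove 0 (by simp)
      · exact le_ciSup_of_le (Set.finite_range _).bddAbove 1 (by simp)
    · apply ciSup_le
      intro i
      fin_cases i
      · simp
      · simp
  rw [h5]
  calc _ = (∏ v : InfinitePlace K, (⨆ i, v ((![(x : K), (y : K)] : Fin 2 → K) i)) ^ v.mult) *
        ((Ideal.span {x, y} : Ideal (𝓞 K)).absNorm *
          ∏ᶠ v : FinitePlace K, ⨆ i, v ((![(x : K), (y : K)] : Fin 2 → K) i)) := by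
        rw [h1, mul_one]
    _ = _ := by ring

end Pool.Agent.Y730.RD
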