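import Mathlib
import Pool.Agent.Y730.RD.Had
import Pool.Agent.Y730.RD.Ht
import Pool.Agent.Y730.RD.Det

/-!
# Extension of an independent family by multiples of powers of the generator
-/

set_option autoImplicit false

open NumberField Module

namespace Pool.Agent.Y730.RD

variable {K : Type*} [Field K] [NumberField K]

lemma li_iff {κ : Type*} (η : κ → 𝓞 K) :
    LinearIndependent ℤ η ↔ LinearIndependent ℚ (fun i => (η i : K)) := by
  rw [← LinearIndependent.iff_fractionRing ℤ ℚ]
  have hker : LinearMap.ker ((Algebra.linearMap (𝓞 K) K).restrictScalars ℤ) = ⊥ := by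
    rw [LinearMap.ker_eq_bot]
    exact RingOfIntegers.coe_injective
  exact (LinearMap.linearIndependent_iff _ hker).symm

/-- extension of an independent family by multiples of powers of the generator -/
theorem ext_family {n : ℕ} (hn : finrank ℚ K = n) (θ : 𝓞 K)
    (hgen : LinearIndependent ℤ (fun i : Fin n => θ ^ (i : ℕ)))
    {κ : Type*} [Fintype κ] (u : κ → 𝓞 K) (hu : LinearIndependent ℤ u) (w : 𝓞 K) (hw : w ≠ 0) :
    ∃ J : Finset (Fin n), Fintype.card κ + J.card = n ∧
      LinearIndependent ℤ (Sum.elim u (fun j : J => θ ^ ((j : Fin n) : ℕ) * w)) := by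
  classical
  have hw' : (w : K) ≠ 0 := by exact_mod_cast hw
  set v : κ ⊕ Fin n → K := Sum.elim (fun i => (u i : K)) (fun j => (θ : K) ^ (j : ℕ) * w) with hv
  have hs : LinearIndepOn ℚ v (Set.range (Sum.inl : κ → κ ⊕ Fin n)) := by
    rw [linearIndepOn_range_iff Sum.inl_injective]
    exact (li_iff u).1 hu
  obtain ⟨b, -, hsb, hspan, hb⟩ := exists_linearIndepOn_extension hs (Set.subset_univ _)
  -- the powers times `w` span
  have hpow : LinearIndependent ℚ (fun j : Fin n => (θ : K) ^ (j : ℕ) * w) := by
    have h1 : LinearIndependent ℚ (fun i : Fin n => ((θ ^ (i : ℕ) : 𝓞 K) : K)) := (li_iff _).1 hgen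
    have h2 := h1.map' (LinearMap.mulRight ℚ (w : K)) (by
      rw [LinearMap.ker_eq_bot]
      intro x y hxy
      exact mul_right_cancel₀ hw' hxy)
    exact h2
  have htop : Submodule.span ℚ (Set.range (fun j : Fin n => (θ : K) ^ (j : ℕ) * w)) = ⊤ := by
    apply hpow.span_eq_top_of_card_eq_finrank'
    rw [Fintype.card_fin, hn]
  have hbspan : Submodule.span ℚ (v '' b) = ⊤ := by
    rw [eq_top_iff, ← htop, Submodule.span_le]
    rintro _ ⟨j, rfl⟩
    exact hspan ⟨Sum.inr j, Set.mem_univ _, rfl⟩
  have hbcard : Fintype.card b = n := by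
    have h1 : finrank ℚ (Submodule.span ℚ (Set.range (fun x : b => v x))) = Fintype.card b :=
      finrank_span_eq_card hb
    have h2 : Set.range (fun x : b => v x) = v '' b := by
      ext z
      simp
    rw [h2, hbspan, finrank_top, hn] at h1
    exact h1.symm
  set J : Finset (Fin n) := Finset.univ.filter fun j => (Sum.inr j : κ ⊕ Fin n) ∈ b with hJ
  let f : κ ⊕ J → b := fun x => match x with
    | Sum.inl i => ⟨Sum.inl i, hsb ⟨i, rfl⟩⟩
    | Sum.inr j => ⟨Sum.inr j.1, (Finset.mem_filter.1 j.2).2⟩
  have hf : Function.Bijective f := by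
    constructor
    · rintro (i | j) (i' | j') h
      · simpa [f] using h
      · simp [f] at h
      · simp [f] at h
      · have : j.1 = j'.1 := by simpa [f] using h
        rw [Subtype.ext this]
    · rintro ⟨x | x, hx⟩
      · exact ⟨Sum.inl x, rfl⟩
      · exact ⟨Sum.inr ⟨x, Finset.mem_filter.2 ⟨Finset.mem_univ _, hx⟩⟩, rfl⟩
  refine ⟨J, ?_, ?_⟩
  · have h1 := Fintype.card_congr (Equiv.ofBijective f hf)
    rw [Fintype.card_sum, hbcard, Fintype.card_coe] at h1
    exact h1
  · rw [li_iff]
    have h1 : LinearIndependent ℚ ((fun x : b => v x) ∘ f) := LinearIndependent.comp hb f hf.1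
    convert h1 using 1
    funext x
    rcases x with i | j
    · rfl
    · simp [f, hv]

end Pool.Agent.Y730.RD
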