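import Mathlib
import Pool.Agent.Y730.RD.Ext

/-!
# Elements of small height are quotients of polynomials of small degree in the generator
-/

set_option autoImplicit false

open NumberField Module Height

namespace Pool.Agent.Y730.RD

variable {K : Type*} [Field K] [NumberField K]

/-- Hadamard's bound for a matrix of conjugates -/
theorem upper {ι : Type*} [Fintype ι] [DecidableEq ι] (e : ι ≃ (K →+* ℂ)) (η : ι → 𝓞 K)
    (ρ : ℝ) (hρ : 0 < ρ) (ex : ι → ℕ) (m : (K →+* ℂ) → ℝ) (hm : ∀ σ, 0 ≤ m σ)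
    (h : ∀ σ c, ‖σ (η c)‖ ≤ ρ ^ ex c * m σ) :
    ‖(conjMat e η).det‖ ^ 2 ≤
      ρ ^ (2 * ∑ c, ex c) * ((Fintype.card ι : ℝ) ^ Fintype.card ι * (∏ σ, m σ) ^ 2) := by
  have h1 : conjMat e η = Matrix.of fun i c => ((ρ : ℂ) ^ ex c) *
      ((Matrix.of fun i c => e i (η c) / (ρ : ℂ) ^ ex c : Matrix ι ι ℂ) i c) := by
    ext i c
    simp only [conjMat, Matrix.of_apply]
    rw [mul_div_cancel₀]
    exact pow_ne_zero _ (by exact_mod_cast hρ.ne')
  rw [h1, Matrix.det_mul_row, norm_mul, mul_pow]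
  have h2 : ‖∏ c, (ρ : ℂ) ^ ex c‖ ^ 2 = ρ ^ (2 * ∑ c, ex c) := by
    rw [Finset.prod_pow_eq_pow_sum, norm_pow, Complex.norm_real, Real.norm_eq_abs,
      abs_of_pos hρ, ← pow_mul, mul_comm]
  rw [h2]
  refine mul_le_mul_of_nonneg_left ?_ (by positivity)
  refine (hadamard _).trans ?_
  have h3 : ((Fintype.card ι : ℝ) ^ Fintype.card ι * (∏ σ, m σ) ^ 2) =
      ∏ i : ι, ((Fintype.card ι : ℝ) * (m (e i)) ^ 2) := by
    rw [Finset.prod_mul_distrib, Finset.prod_const, Finset.card_univ, Finset.prod_pow]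
    congr 2
    exact (Equiv.prod_comp e m).symm
  rw [h3]
  refine Finset.prod_le_prod (fun i _ => Finset.sum_nonneg fun _ _ => by positivity)
    (fun i _ => ?_)
  calc ∑ c, ‖(Matrix.of fun i c => e i (η c) / (ρ : ℂ) ^ ex c : Matrix ι ι ℂ) i c‖ ^ 2
      ≤ ∑ _c : ι, (m (e i)) ^ 2 := by
        refine Finset.sum_le_sum fun c _ => ?_
        refine pow_le_pow_left₀ (norm_nonneg _) ?_ 2
        rw [Matrix.of_apply, norm_div, norm_pow, Complex.norm_real, Real.norm_eq_abs,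
          abs_of_pos hρ, div_le_iff₀ (by positivity), mul_comm]
        exact h _ _
    _ = _ := by
        rw [Finset.sum_const, Finset.card_univ, nsmul_eq_mul]

/-- the sum of the exponents -/
lemma exponents {n T : ℕ} (J : Finset (Fin n)) (hJ : ∀ j ∈ J, T ≤ (j : ℕ))
    (hc : 2 * T + J.card = n) :
    2 * (2 * ∑ b : Fin T, (b : ℕ) + ∑ j ∈ J, (j : ℕ)) + T * (T + 1) ≤ n * (n - 1) := by
  have h1 : 2 * ∑ b : Fin T, (b : ℕ) = T * (T - 1) := by
    rw [Fin.sum_univ_eq_sum_range (fun i => i) T, mul_comm, Finset.sum_range_id_mul_two]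
  have h2 : 2 * ∑ j : Fin n, (j : ℕ) = n * (n - 1) := by
    rw [Fin.sum_univ_eq_sum_range (fun i => i) n, mul_comm, Finset.sum_range_id_mul_two]
  -- split `Fin n`
  have h3 : ∑ j ∈ Finset.univ.filter (fun j : Fin n => (j : ℕ) < T), (j : ℕ) =
      ∑ b : Fin T, (b : ℕ) := by
    have hT : T ≤ n := by omega
    symm
    refine Finset.sum_bij (fun (b : Fin T) _ => (⟨(b : ℕ), by omega⟩ : Fin n)) ?_ ?_ ?_ ?_
    · intro b _; simp
    · intro b _ b' _ h; simpa [Fin.ext_iff] using h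
    · intro j hj
      rw [Finset.mem_filter] at hj
      exact ⟨⟨(j : ℕ), hj.2⟩, Finset.mem_univ _, rfl⟩
    · intro b _; rfl
  have h4 : ∑ j : Fin n, (j : ℕ) = ∑ b : Fin T, (b : ℕ) +
      ∑ j ∈ Finset.univ.filter (fun j : Fin n => ¬ (j : ℕ) < T), (j : ℕ) := by
    rw [← h3, Finset.sum_filter_add_sum_filter_not]
  have hsub : J ⊆ Finset.univ.filter (fun j : Fin n => ¬ (j : ℕ) < T) := by
    intro j hj
    rw [Finset.mem_filter]
    exact ⟨Finset.mem_univ _, by have := hJ j hj; omega⟩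
  have h5 : (Finset.univ.filter (fun j : Fin n => (j : ℕ) < T)).card = T := by
    have hT : T ≤ n := by omega
    have : (Finset.univ.filter (fun j : Fin n => (j : ℕ) < T)).card =
        (Finset.univ : Finset (Fin T)).card := by
      symm
      refine Finset.card_bij (fun (b : Fin T) _ => (⟨(b : ℕ), by omega⟩ : Fin n)) ?_ ?_ ?_
      · intro b _; simp
      · intro b _ b' _ h; simpa [Fin.ext_iff] using h
      · intro j hj
        rw [Finset.mem_filter] at hj
        exact ⟨⟨(j : ℕ), hj.2⟩, Finset.mem_univ _, rfl⟩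
    rw [this, Finset.card_univ, Fintype.card_fin]
  have h6 : (Finset.univ.filter (fun j : Fin n => (j : ℕ) < T)).card +
      (Finset.univ.filter (fun j : Fin n => ¬ (j : ℕ) < T)).card = n := by
    rw [Finset.card_filter_add_card_filter_not, Finset.card_univ, Fintype.card_fin]
  have h7 : ((Finset.univ.filter (fun j : Fin n => ¬ (j : ℕ) < T)) \ J).card = T := by
    rw [Finset.card_sdiff_of_subset hsub]
    omega
  have h8 : T * T ≤ ∑ j ∈ (Finset.univ.filter (fun j : Fin n => ¬ (j : ℕ) < T)) \ J, (j : ℕ) := by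
    calc T * T = ((Finset.univ.filter (fun j : Fin n => ¬ (j : ℕ) < T)) \ J).card * T := by rw [h7]
      _ = ∑ _j ∈ (Finset.univ.filter (fun j : Fin n => ¬ (j : ℕ) < T)) \ J, T := by
          rw [Finset.sum_const, smul_eq_mul]
      _ ≤ _ := by
          refine Finset.sum_le_sum fun j hj => ?_
          rw [Finset.mem_sdiff, Finset.mem_filter] at hj
          omega
  have h9 : ∑ j ∈ (Finset.univ.filter (fun j : Fin n => ¬ (j : ℕ) < T)) \ J, (j : ℕ) +
      ∑ j ∈ J, (j : ℕ) = ∑ j ∈ Finset.univ.filter (fun j : Fin n => ¬ (j : ℕ) < T), (j : ℕ) :=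
    Finset.sum_sdiff hsub
  rcases T with _ | T
  · simp at h1 ⊢
    omega
  · simp only [Nat.add_sub_cancel] at h1
    nlinarith

/-- **Step 1.** -/
theorem step1 {n a T : ℕ} (hn : finrank ℚ K = n) (θ : 𝓞 K) (ρ : ℝ) (hρ1 : 1 ≤ ρ)
    (hρn : ρ ^ n = a) (hρ : ∀ σ : K →+* ℂ, ‖σ θ‖ = ρ)
    (hgen : LinearIndependent ℤ (fun i : Fin n => θ ^ (i : ℕ)))
    (x y : 𝓞 K) (hy : y ≠ 0)
    (hli : LinearIndependent ℤ (Sum.elim (fun b : Fin T => θ ^ (b : ℕ) * x)
      (fun b : Fin T => θ ^ (b : ℕ) * y))) :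
    |(discr K : ℝ)| * ρ ^ (T * (T + 1)) ≤
      (n : ℝ) ^ n * (a : ℝ) ^ (n - 1) * mulHeight₁ ((x : K) / (y : K)) ^ 2 := by
  classical
  obtain ⟨J, hJc, hJ⟩ := ext_family hn θ hgen _ hli y hy
  have hρ0 : 0 < ρ := by linarith
  have hJT : ∀ j ∈ J, T ≤ (j : ℕ) := by
    intro j hj
    by_contra hlt
    push Not at hlt
    have hinj := hJ.injective
    have h1 : (Sum.inl (Sum.inr ⟨(j : ℕ), hlt⟩) : (Fin T ⊕ Fin T) ⊕ J) = Sum.inr ⟨j, hj⟩ := by
      apply hinj
      simp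
    simp at h1
  have hcard : Fintype.card ((Fin T ⊕ Fin T) ⊕ J) = Fintype.card (K →+* ℂ) := by
    rw [Fintype.card_sum, Fintype.card_coe, hJc, Embeddings.card, hn]
  let e : ((Fin T ⊕ Fin T) ⊕ J) ≃ (K →+* ℂ) := Fintype.equivOfCardEq hcard
  set η : ((Fin T ⊕ Fin T) ⊕ J) → 𝓞 K := Sum.elim (Sum.elim (fun b : Fin T => θ ^ (b : ℕ) * x)
      (fun b : Fin T => θ ^ (b : ℕ) * y)) (fun j : J => θ ^ ((j : Fin n) : ℕ) * y) with hη
  set I : Ideal (𝓞 K) := Ideal.span {x, y} with hI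
  have hxI : x ∈ I := Ideal.subset_span (by simp)
  have hyI : y ∈ I := Ideal.subset_span (by simp)
  have hηI : ∀ i, η i ∈ I := by
    rintro ((b | b) | j)
    · exact I.mul_mem_left _ hxI
    · exact I.mul_mem_left _ hyI
    · exact I.mul_mem_left _ hyI
  have h1 := det_lower e I η hηI hJ
  let ex : ((Fin T ⊕ Fin T) ⊕ J) → ℕ := Sum.elim (Sum.elim (fun b => (b : ℕ)) (fun b => (b : ℕ)))
    (fun j => ((j : Fin n) : ℕ))
  have h2 := upper e η ρ hρ0 ex (fun σ => max ‖σ x‖ ‖σ y‖) (fun σ => le_max_of_le_left (norm_nonneg _))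
    (by
      rintro σ ((b | b) | j)
      · simp only [hη, Sum.elim_inl, ex, map_mul, map_pow, norm_mul, norm_pow, hρ σ]
        exact mul_le_mul_of_nonneg_left (le_max_left _ _) (by positivity)
      · simp only [hη, Sum.elim_inl, Sum.elim_inr, ex, map_mul, map_pow, norm_mul, norm_pow, hρ σ]
        exact mul_le_mul_of_nonneg_left (le_max_right _ _) (by positivity)
      · simp only [hη, Sum.elim_inr, ex, map_mul, map_pow, norm_mul, norm_pow, hρ σ]
        exact mul_le_mul_of_nonneg_left (le_max_right _ _) (by positivity))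
  rw [prod_max_eq x y hy, hcard, Embeddings.card, hn] at h2
  have hN : (0 : ℝ) < (I.absNorm : ℝ) := by
    have : I.absNorm ≠ 0 := by
      rw [Ne, Ideal.absNorm_eq_zero_iff]
      intro h
      rw [h, Ideal.mem_bot] at hyI
      exact hy hyI
    exact_mod_cast Nat.pos_of_ne_zero this
  have h3 : |(discr K : ℝ)| ≤ ρ ^ (2 * ∑ c, ex c) *
      ((n : ℝ) ^ n * mulHeight₁ ((x : K) / (y : K)) ^ 2) := by
    have h4 := h1.trans h2
    have h5 : (0 : ℝ) < (I.absNorm : ℝ) ^ 2 := by positivity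
    refine le_of_mul_le_mul_left ?_ h5
    calc (I.absNorm : ℝ) ^ 2 * |(discr K : ℝ)| ≤ _ := h4
      _ = _ := by ring
  have hex : 2 * ∑ c, ex c + T * (T + 1) ≤ n * (n - 1) := by
    have h4 : ∑ c, ex c = 2 * ∑ b : Fin T, (b : ℕ) + ∑ j ∈ J, (j : ℕ) := by
      rw [Fintype.sum_sum_type, Fintype.sum_sum_type]
      simp only [ex, Sum.elim_inl, Sum.elim_inr]
      rw [Finset.sum_coe_sort J (fun j => (j : ℕ))]
      ring
    rw [h4]
    apply exponents J hJT
    rw [Fintype.card_sum, Fintype.card_fin] at hJc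
    omega
  calc |(discr K : ℝ)| * ρ ^ (T * (T + 1))
      ≤ (ρ ^ (2 * ∑ c, ex c) * ((n : ℝ) ^ n * mulHeight₁ ((x : K) / (y : K)) ^ 2)) *
        ρ ^ (T * (T + 1)) := mul_le_mul_of_nonneg_right h3 (by positivity)
    _ = ρ ^ (2 * ∑ c, ex c + T * (T + 1)) *
        ((n : ℝ) ^ n * mulHeight₁ ((x : K) / (y : K)) ^ 2) := by rw [pow_add]; ring
    _ ≤ ρ ^ (n * (n - 1)) * ((n : ℝ) ^ n * mulHeight₁ ((x : K) / (y : K)) ^ 2) := by
        refine mul_le_mul_of_nonneg_right (pow_le_pow_right₀ hρ1 hex) ?_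
        positivity
    _ = _ := by
        rw [pow_mul, hρn]
        ring

end Pool.Agent.Y730.RD
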