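import Mathlib
import Pool.Agent.Y730.RD.Ext

/-!
# Determinants of functionals in two bases; the Vandermonde determinant of the roots of unity;
the kernel of the evaluation map on pairs of polynomials
-/

set_option autoImplicit false

open Module Polynomial

namespace Pool.Agent.Y730.RD

/-- the absolute value of the determinant of a family of functionals does not depend on the
integral basis -/
theorem det_basis_change {V ι : Type*} [AddCommGroup V] [Fintype ι] [DecidableEq ι]
    (b b' : Basis ι ℤ V) (ℓ : ι → V →ₗ[ℤ] ℂ) :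
    ‖(Matrix.of fun i j => ℓ i (b j)).det‖ = ‖(Matrix.of fun i j => ℓ i (b' j)).det‖ := by
  have h1 : (Matrix.of fun i j => ℓ i (b j)) =
      (Matrix.of fun i j => ℓ i (b' j)) * (b'.toMatrix b).map (Int.cast : ℤ → ℂ) := by
    ext i j
    rw [Matrix.mul_apply]
    simp only [Matrix.of_apply, Matrix.map_apply]
    conv_lhs => rw [← b'.sum_toMatrix_smul_self b j]
    rw [map_sum]
    refine Finset.sum_congr rfl fun k _ => ?_
    rw [map_zsmul, zsmul_eq_mul, mul_comm]
  rw [h1, Matrix.det_mul, norm_mul]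
  have h2 : ((b'.toMatrix b).map (Int.cast : ℤ → ℂ)).det = ((b'.toMatrix b).det : ℂ) := by
    rw [Int.cast_det]
  rw [h2]
  have h3 : IsUnit (b'.det b) := b'.isUnit_det b
  rw [Basis.det_apply] at h3
  rcases Int.isUnit_iff.1 h3 with h | h <;> rw [h] <;> simp

/-- the Vandermonde determinant of the roots of unity -/
theorem vandermonde_roots {s : ℕ} (hs : 0 < s) (ζ : ℂ) (hζ : IsPrimitiveRoot ζ s) :
    ‖(Matrix.vandermonde fun i : Fin s => ζ ^ (i : ℕ)).det‖ ^ 2 = (s : ℝ) ^ s := by
  set W := Matrix.vandermonde fun i : Fin s => ζ ^ (i : ℕ) with hW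
  have hnorm : ‖ζ‖ = 1 := hζ.norm'_eq_one hs.ne'
  have h1 : W * W.conjTranspose = (s : ℂ) • (1 : Matrix (Fin s) (Fin s) ℂ) := by
    ext i j
    rw [Matrix.mul_apply]
    simp only [hW, Matrix.vandermonde_apply, Matrix.conjTranspose_apply, RCLike.star_def,
      map_pow, Matrix.smul_apply, smul_eq_mul]
    have hconj : (starRingEnd ℂ) ζ = ζ⁻¹ := by
      rw [Complex.inv_def, Complex.normSq_eq_norm_sq, hnorm]
      simp
    have hζ0 : ζ ≠ 0 := hζ.ne_zero hs.ne'
    rw [hconj]
    set w : ℂ := ζ ^ (i : ℕ) * (ζ⁻¹) ^ (j : ℕ) with hw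
    have h2 : ∀ k : Fin s, (ζ ^ (i : ℕ)) ^ (k : ℕ) * ((ζ⁻¹) ^ (j : ℕ)) ^ (k : ℕ) = w ^ (k : ℕ) := by
      intro k
      rw [hw, mul_pow]
    rw [Finset.sum_congr rfl fun k _ => h2 k, Fin.sum_univ_eq_sum_range (fun k => w ^ k) s]
    by_cases hij : i = j
    · subst hij
      have : w = 1 := by
        rw [hw, ← mul_pow, mul_inv_cancel₀ hζ0, one_pow]
      rw [this]
      simp
    · rw [Matrix.one_apply_ne hij, mul_zero]
      have hw1 : w ≠ 1 := by
        intro h
        rw [hw, inv_pow, mul_inv_eq_one₀ (pow_ne_zero _ hζ0)] at h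
        exact hij (Fin.ext (hζ.pow_inj i.2 j.2 h))
      have hws : w ^ s = 1 := by
        rw [hw, mul_pow, ← pow_mul, ← pow_mul, mul_comm (i : ℕ) s, mul_comm (j : ℕ) s, pow_mul,
          pow_mul, hζ.pow_eq_one, inv_pow, hζ.pow_eq_one]
        simp
      have h3 := mul_geom_sum w s
      rw [hws, sub_self] at h3
      rcases mul_eq_zero.1 h3 with h | h
      · exact absurd (sub_eq_zero.1 h) hw1
      · exact h
  have h2 := congrArg Matrix.det h1
  rw [Matrix.det_mul, Matrix.det_conjTranspose, RCLike.star_def, Complex.mul_conj,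
    Matrix.det_smul, Matrix.det_one, mul_one, Fintype.card_fin, Complex.normSq_eq_norm_sq] at h2
  exact_mod_cast h2

/-! ### The kernel -/

section ker

variable (U₀ U₁ : ℤ[X]) (s T : ℕ)

/-- multiplication of the pair `(U₀, U₁)` by polynomials of degree less than `s` -/
noncomputable def psi (h0 : s + max U₀.natDegree U₁.natDegree = T) :
    degreeLT ℤ s →ₗ[ℤ] degreeLT ℤ T × degreeLT ℤ T where
  toFun H := (⟨H.1 * U₀, by
      rw [mem_degreeLT]
      rcases eq_or_ne (H.1 * U₀) 0 with h | h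
      · rw [h, degree_zero]; exact WithBot.bot_lt_coe _
      · have hH : H.1 ≠ 0 := left_ne_zero_of_mul h
        have h1 := mem_degreeLT.1 H.2
        rw [degree_eq_natDegree h]
        rw [degree_eq_natDegree hH] at h1
        have h2 : H.1.natDegree < s := by exact_mod_cast h1
        have h3 := natDegree_mul_le (p := H.1) (q := U₀)
        have h4 : U₀.natDegree ≤ max U₀.natDegree U₁.natDegree := le_max_left _ _
        exact_mod_cast (by omega : (H.1 * U₀).natDegree < T)⟩,
    ⟨H.1 * U₁, by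
      rw [mem_degreeLT]
      rcases eq_or_ne (H.1 * U₁) 0 with h | h
      · rw [h, degree_zero]; exact WithBot.bot_lt_coe _
      · have hH : H.1 ≠ 0 := left_ne_zero_of_mul h
        have h1 := mem_degreeLT.1 H.2
        rw [degree_eq_natDegree h]
        rw [degree_eq_natDegree hH] at h1
        have h2 : H.1.natDegree < s := by exact_mod_cast h1
        have h3 := natDegree_mul_le (p := H.1) (q := U₁)
        have h4 : U₁.natDegree ≤ max U₀.natDegree U₁.natDegree := le_max_right _ _
        exact_mod_cast (by omega : (H.1 * U₁).natDegree < T)⟩)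
  map_add' H H' := by
    ext : 2 <;> simp [add_mul]
  map_smul' c H := by
    ext : 2 <;> simp [mul_assoc]

variable {U₀ U₁ s T}

@[simp] lemma psi_fst (h0 : s + max U₀.natDegree U₁.natDegree = T) (H : degreeLT ℤ s) :
    ((psi U₀ U₁ s T h0 H).1 : ℤ[X]) = H.1 * U₀ := rfl

@[simp] lemma psi_snd (h0 : s + max U₀.natDegree U₁.natDegree = T) (H : degreeLT ℤ s) :
    ((psi U₀ U₁ s T h0 H).2 : ℤ[X]) = H.1 * U₁ := rfl

lemma psi_injective (h0 : s + max U₀.natDegree U₁.natDegree = T) (hU : U₁ ≠ 0) :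
    Function.Injective (psi U₀ U₁ s T h0) := by
  intro H H' h
  have h1 : H.1 * U₁ = H'.1 * U₁ := by
    rw [← psi_snd h0, ← psi_snd h0, h]
  exact Subtype.ext (mul_right_cancel₀ hU h1)

variable {R : Type*} [CommRing R]

/-- evaluation of a pair of polynomials: `(A₀, A₁) ↦ A₀(θ) y - A₁(θ) x` -/
noncomputable def phi (T : ℕ) (θ x y : R) : degreeLT ℤ T × degreeLT ℤ T →ₗ[ℤ] R :=
  ((LinearMap.mulRight ℤ y) ∘ₗ (aeval θ).toLinearMap ∘ₗ (degreeLT ℤ T).subtype ∘ₗ
    LinearMap.fst ℤ _ _) -
  ((LinearMap.mulRight ℤ x) ∘ₗ (aeval θ).toLinearMap ∘ₗ (degreeLT ℤ T).subtype ∘ₗ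
    LinearMap.snd ℤ _ _)

@[simp] lemma phi_apply (T : ℕ) (θ x y : R) (A : degreeLT ℤ T × degreeLT ℤ T) :
    phi T θ x y A = aeval θ (A.1 : ℤ[X]) * y - aeval θ (A.2 : ℤ[X]) * x := rfl

/-- the kernel of `phi` is generated by the multiples of the pair `(U₀, U₁)` -/
theorem ker_phi [IsDomain R] {n : ℕ} (θ x y : R) (hy : y ≠ 0)
    (hgen : ∀ f : ℤ[X], f.natDegree < n → aeval θ f = 0 → f = 0)
    (h0 : s + max U₀.natDegree U₁.natDegree = T) (hU : U₁ ≠ 0) (hrel : IsRelPrime U₀ U₁)
    (hxy : x * aeval θ U₁ = y * aeval θ U₀)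
    (hT : T + max U₀.natDegree U₁.natDegree ≤ n) (hs : 0 < s) :
    LinearMap.range (psi U₀ U₁ s T h0) = LinearMap.ker (phi T θ x y) := by
  apply le_antisymm
  · rintro _ ⟨H, rfl⟩
    rw [LinearMap.mem_ker, phi_apply, psi_fst, psi_snd, map_mul, map_mul]
    linear_combination (-(aeval θ (H : ℤ[X]))) * hxy
  · intro A hA
    rw [LinearMap.mem_ker, phi_apply] at hA
    have hA1 := mem_degreeLT.1 A.1.2
    have hA2 := mem_degreeLT.1 A.2.2
    have hTpos : 0 < T := by omega
    have hd1 : (A.1 : ℤ[X]).natDegree < T := by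
      rcases eq_or_ne (A.1 : ℤ[X]) 0 with h | h
      · rw [h, natDegree_zero]; exact hTpos
      · rw [degree_eq_natDegree h] at hA1; exact_mod_cast hA1
    have hd2 : (A.2 : ℤ[X]).natDegree < T := by
      rcases eq_or_ne (A.2 : ℤ[X]) 0 with h | h
      · rw [h, natDegree_zero]; exact hTpos
      · rw [degree_eq_natDegree h] at hA2; exact_mod_cast hA2
    have hle0 : U₀.natDegree ≤ max U₀.natDegree U₁.natDegree := le_max_left _ _
    have hle1 : U₁.natDegree ≤ max U₀.natDegree U₁.natDegree := le_max_right _ _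
    have hpoly : (A.1 : ℤ[X]) * U₁ - (A.2 : ℤ[X]) * U₀ = 0 := by
      apply hgen
      · refine lt_of_le_of_lt (natDegree_sub_le _ _) (max_lt ?_ ?_)
        · exact lt_of_le_of_lt natDegree_mul_le (by omega)
        · exact lt_of_le_of_lt natDegree_mul_le (by omega)
      · rw [map_sub, map_mul, map_mul]
        apply mul_left_cancel₀ hy
        linear_combination (aeval θ U₁) * hA + (aeval θ (A.2 : ℤ[X])) * hxy
    have hdvd : U₁ ∣ (A.2 : ℤ[X]) * U₀ := by
      rw [← sub_eq_zero.1 hpoly]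
      exact Dvd.intro_left _ rfl
    obtain ⟨H, hH⟩ := hrel.symm.dvd_of_dvd_mul_right hdvd
    have hH0 : (A.1 : ℤ[X]) = H * U₀ := by
      apply mul_right_cancel₀ hU
      rw [sub_eq_zero.1 hpoly, hH]
      ring
    have hH1 : (A.2 : ℤ[X]) = H * U₁ := by rw [hH, mul_comm]
    have hHdeg : H ∈ degreeLT ℤ s := by
      rw [mem_degreeLT]
      rcases eq_or_ne H 0 with h | h
      · rw [h, degree_zero]; exact WithBot.bot_lt_coe _
      · rw [degree_eq_natDegree h]
        have h3 : H.natDegree + U₁.natDegree < T := by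
          rw [← natDegree_mul h hU, ← hH1]; exact hd2
        have h4 : H.natDegree + U₀.natDegree < T := by
          rcases eq_or_ne U₀ 0 with h5 | h5
          · rw [h5, natDegree_zero]; omega
          · rw [← natDegree_mul h h5, ← hH0]; exact hd1
        have h5 : H.natDegree < s := by
          rcases max_choice U₀.natDegree U₁.natDegree with h6 | h6 <;> omega
        exact_mod_cast h5
    refine ⟨⟨H, hHdeg⟩, ?_⟩
    ext : 2
    · exact hH0.symm
    · exact hH1.symm

end ker

end Pool.Agent.Y730.RD
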