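import Mathlib
import Pool.Agent.Y730.RD.Step1
import Pool.Agent.Y730.RD.Lin

/-!
# The values at roots of unity of the pair of polynomials attached to an element
-/

set_option autoImplicit false

open NumberField Module Height Polynomial

namespace Pool.Agent.Y730.RD

variable {K : Type*} [Field K] [NumberField K]

/-- **Step 3.** -/
theorem step3 {n s T : ℕ} (hn : finrank ℚ K = n) (θ : 𝓞 K) (ρ A : ℝ) (hρ1 : 1 ≤ ρ)
    (hA : ρ ^ n ≤ A) (hρ : ∀ σ : K →+* ℂ, ‖σ θ‖ = ρ)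
    (hgen : LinearIndependent ℤ (fun i : Fin n => θ ^ (i : ℕ)))
    (hgen' : ∀ f : ℤ[X], f.natDegree < n → aeval θ f = 0 → f = 0)
    (x y : 𝓞 K) (hy : y ≠ 0) (U₀ U₁ : ℤ[X]) (hU : U₁ ≠ 0) (hrel : IsRelPrime U₀ U₁)
    (hxy : x * aeval θ U₁ = y * aeval θ U₀)
    (h0 : s + max U₀.natDegree U₁.natDegree = T)
    (hT : T + max U₀.natDegree U₁.natDegree ≤ n) (hs : 0 < s)
    (ζ : ℂ) (hζ : IsPrimitiveRoot ζ s) :
    |(discr K : ℝ)| * (s : ℝ) ^ s *
      ∏ i : Fin s, (max ‖aeval (ζ ^ (i : ℕ)) U₀‖ ‖aeval (ζ ^ (i : ℕ)) U₁‖) ^ 2 ≤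
    (T : ℝ) ^ s * (((n + s : ℕ) : ℝ) * A ^ 2) ^ n * mulHeight₁ ((x : K) / (y : K)) ^ 2 := by
  classical
  have hA0 : 0 < A := lt_of_lt_of_le (by positivity) hA
  have hρ0 : 0 < ρ := by linarith
  set φ := phi T θ x y with hφ
  have hker := ker_phi θ x y hy hgen' h0 hU hrel hxy hT hs
  -- the basis of the kernel
  let W := LinearMap.ker φ
  let bW : Basis (Fin s) ℤ W := (degreeLT.basis ℤ s).map
    ((LinearEquiv.ofInjective _ (psi_injective h0 hU)).trans (LinearEquiv.ofEq _ _ hker))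
  have hbW : ∀ b, (bW b : degreeLT ℤ T × degreeLT ℤ T) =
      psi U₀ U₁ s T h0 (degreeLT.basis ℤ s b) := by
    intro b
    simp [bW]
  -- a basis of the quotient
  let Q := Free.ChooseBasisIndex ℤ (LinearMap.range φ)
  let c : Basis Q ℤ (LinearMap.range φ) := Free.chooseBasis ℤ (LinearMap.range φ)
  let bQ : Basis Q ℤ ((degreeLT ℤ T × degreeLT ℤ T) ⧸ W) := c.map φ.quotKerEquivRange.symm
  let B : Basis (Fin s ⊕ Q) ℤ (degreeLT ℤ T × degreeLT ℤ T) := Basis.sumQuot bW bQ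
  have hBl : ∀ b, B (Sum.inl b) = psi U₀ U₁ s T h0 (degreeLT.basis ℤ s b) := by
    intro b
    rw [← hbW]
    exact Basis.sumQuot_inl bW bQ b
  have hBr : ∀ q, φ (B (Sum.inr q)) = (c q : 𝓞 K) := by
    intro q
    have h1 : (Submodule.Quotient.mk (B (Sum.inr q)) : (degreeLT ℤ T × degreeLT ℤ T) ⧸ W) = bQ q :=
      Basis.sumQuot_inr bW bQ q
    have h2 : φ.quotKerEquivRange (Submodule.Quotient.mk (B (Sum.inr q))) = c q := by
      rw [h1]
      simp [bQ]
    rw [← h2]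
    rfl
  have hBker : ∀ b, φ (B (Sum.inl b)) = 0 := by
    intro b
    have : B (Sum.inl b) ∈ LinearMap.ker φ := by
      rw [← hker, hBl]
      exact ⟨_, rfl⟩
    exact this
  -- independence
  have hcli : LinearIndependent ℤ (fun q => (c q : 𝓞 K)) := by
    have := c.linearIndependent.map' (Submodule.subtype _) (Submodule.ker_subtype _)
    exact this
  obtain ⟨J, hJc, hJ⟩ := ext_family hn θ hgen _ hcli y hy
  -- cardinalities
  have hc1 : s + Fintype.card Q = T + T := by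
    have h1 := Fintype.card_congr (B.indexEquiv ((degreeLT.basis ℤ T).prod (degreeLT.basis ℤ T)))
    simpa using h1
  have hcard : Fintype.card (Q ⊕ J) = Fintype.card (K →+* ℂ) := by
    rw [Fintype.card_sum, Fintype.card_coe, hJc, Embeddings.card, hn]
  let E : (Q ⊕ J) ≃ (K →+* ℂ) := Fintype.equivOfCardEq hcard
  -- the big lattice and its two bases
  let bS : Basis ((Fin T ⊕ Fin T) ⊕ J) ℤ ((degreeLT ℤ T × degreeLT ℤ T) × (J → ℤ)) :=
    ((degreeLT.basis ℤ T).prod (degreeLT.basis ℤ T)).prod (Pi.basisFun ℤ J)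
  let B' : Basis (Fin s ⊕ (Q ⊕ J)) ℤ ((degreeLT ℤ T × degreeLT ℤ T) × (J → ℤ)) :=
    (B.prod (Pi.basisFun ℤ J)).reindex (Equiv.sumAssoc _ _ _)
  let g : ((Fin T ⊕ Fin T) ⊕ J) ≃ (Fin s ⊕ (Q ⊕ J)) := bS.indexEquiv B'
  -- the functionals
  let cmax : Fin s → Prop := fun i =>
    ‖aeval (ζ ^ (i : ℕ)) U₁‖ ≤ ‖aeval (ζ ^ (i : ℕ)) U₀‖
  let evz : Fin s → ((degreeLT ℤ T × degreeLT ℤ T) × (J → ℤ)) →ₗ[ℤ] ℂ := fun i =>
    (aeval (ζ ^ (i : ℕ))).toLinearMap ∘ₗ (degreeLT ℤ T).subtype ∘ₗ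
      (if cmax i then LinearMap.fst ℤ _ _ else LinearMap.snd ℤ _ _) ∘ₗ LinearMap.fst ℤ _ _
  let tot : ((degreeLT ℤ T × degreeLT ℤ T) × (J → ℤ)) →ₗ[ℤ] 𝓞 K :=
    φ.coprod (Fintype.linearCombination ℤ (fun j : J => θ ^ ((j : Fin n) : ℕ) * y))
  let evs : (K →+* ℂ) → ((degreeLT ℤ T × degreeLT ℤ T) × (J → ℤ)) →ₗ[ℤ] ℂ := fun σ =>
    (σ.comp (algebraMap (𝓞 K) K)).toAddMonoidHom.toIntLinearMap ∘ₗ tot
  have hevs : ∀ σ v, evs σ v = σ (tot v : K) := fun σ v => rfl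
  let ℓ : (Fin s ⊕ (Q ⊕ J)) → ((degreeLT ℤ T × degreeLT ℤ T) × (J → ℤ)) →ₗ[ℤ] ℂ :=
    Sum.elim evz (fun r => evs (E r))
  -- the determinant in the basis `B'`
  let η : (Q ⊕ J) → 𝓞 K := Sum.elim (fun q => (c q : 𝓞 K)) (fun j : J => θ ^ ((j : Fin n) : ℕ) * y)
  have htotl : ∀ b : Fin s, tot (B' (Sum.inl b)) = 0 := by
    intro b
    simp [tot, B', hBker]
  have htotr : ∀ r : Q ⊕ J, tot (B' (Sum.inr r)) = η r := by
    rintro (q | j)
    · simp [tot, B', hBr, η]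
    · simp [tot, B', η, Fintype.linearCombination_apply_single]
  let Y : Matrix (Fin s) (Fin s) ℂ := Matrix.of fun i b => evz i (B' (Sum.inl b))
  have hM1 : (Matrix.of fun i j => ℓ i (B' j)) = Matrix.fromBlocks Y
      (Matrix.of fun i r => evz i (B' (Sum.inr r))) 0 (conjMat E η) := by
    ext (i | r) (b | t)
    · rfl
    · rfl
    · simp [ℓ, hevs, htotl]
    · simp [ℓ, hevs, htotr, conjMat]
  have hdet1 : ‖(Matrix.of fun i j => ℓ i (B' j)).det‖ = ‖Y.det‖ * ‖(conjMat E η).det‖ := by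
    rw [hM1, Matrix.det_fromBlocks_zero₂₁, norm_mul]
  -- the determinant of `Y`
  let m : Fin s → ℝ := fun i => max ‖aeval (ζ ^ (i : ℕ)) U₀‖ ‖aeval (ζ ^ (i : ℕ)) U₁‖
  have hY : ‖Y.det‖ ^ 2 = (s : ℝ) ^ s * ∏ i, m i ^ 2 := by
    have h1 : Y = Matrix.of fun i b =>
        (if cmax i then aeval (ζ ^ (i : ℕ)) U₀ else aeval (ζ ^ (i : ℕ)) U₁) *
          (Matrix.vandermonde fun i : Fin s => ζ ^ (i : ℕ)) i b := by
      ext i b
      simp only [Y, Matrix.of_apply, evz, B', Basis.reindex_apply]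
      by_cases hc : cmax i
      · simp [hc, hBl, mul_comm]
      · simp [hc, hBl, mul_comm]
    rw [h1, Matrix.det_mul_column, norm_mul, mul_pow, vandermonde_roots hs ζ hζ, mul_comm,
      norm_prod, ← Finset.prod_pow]
    congr 1
    refine Finset.prod_congr rfl fun i _ => ?_
    by_cases hc : cmax i
    · rw [if_pos hc]
      simp only [m]
      rw [max_eq_left hc]
    · rw [if_neg hc]
      simp only [m]
      rw [max_eq_right (not_le.1 hc).le]
  -- lower bound for the conjugates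
  set I : Ideal (𝓞 K) := Ideal.span {x, y} with hI
  have hxI : x ∈ I := Ideal.subset_span (by simp)
  have hyI : y ∈ I := Ideal.subset_span (by simp)
  have hηI : ∀ i, η i ∈ I := by
    rintro (q | j)
    · show (c q : 𝓞 K) ∈ I
      rw [← hBr q, hφ, phi_apply]
      exact I.sub_mem (I.mul_mem_left _ hyI) (I.mul_mem_left _ hxI)
    · exact I.mul_mem_left _ hyI
  have hlow := det_lower E I η hηI hJ
  -- Hadamard's inequality in the standard basis
  let μ : (K →+* ℂ) → ℝ := fun σ => max ‖σ x‖ ‖σ y‖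
  have hμ : ∀ σ, 0 ≤ μ σ := fun σ => le_max_of_le_left (norm_nonneg _)
  have hbS := det_basis_change B' (bS.reindex g) ℓ
  have hpowA : ∀ b : ℕ, b < n → ρ ^ b ≤ A := fun b hb =>
    (pow_le_pow_right₀ hρ1 hb.le).trans hA
  have hTn : T ≤ n := by omega
  have hnorm : ‖ζ‖ = 1 := hζ.norm'_eq_one hs.ne'
  have hrow1 : ∀ i : Fin s, ∑ j, ‖ℓ (Sum.inl i) ((bS.reindex g) j)‖ ^ 2 ≤ (T : ℝ) := by
    intro i
    rw [← Equiv.sum_comp g]
    simp only [Basis.reindex_apply, Equiv.symm_apply_apply]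
    rw [Fintype.sum_sum_type, Fintype.sum_sum_type]
    by_cases hc : cmax i
    · simp [ℓ, evz, bS, hc, hnorm]
    · simp [ℓ, evz, bS, hc, hnorm]
  have hrow2 : ∀ r : Q ⊕ J, ∑ j, ‖ℓ (Sum.inr r) ((bS.reindex g) j)‖ ^ 2 ≤
      ((n + s : ℕ) : ℝ) * A ^ 2 * μ (E r) ^ 2 := by
    intro r
    rw [← Equiv.sum_comp g]
    simp only [Basis.reindex_apply, Equiv.symm_apply_apply]
    have hb : ∀ j, ‖ℓ (Sum.inr r) (bS j)‖ ^ 2 ≤ A ^ 2 * μ (E r) ^ 2 := by
      intro j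
      rw [← mul_pow]
      refine pow_le_pow_left₀ (norm_nonneg _) ?_ 2
      show ‖(E r) (tot (bS j) : K)‖ ≤ _
      rcases j with (b | b) | j
      · have h1 : tot (bS (Sum.inl (Sum.inl b))) = θ ^ (b : ℕ) * y := by
          simp [tot, bS, hφ]
        rw [h1]
        simp only [map_mul, map_pow, norm_mul, norm_pow, hρ]
        exact mul_le_mul (hpowA _ (by omega)) (le_max_right _ _) (norm_nonneg _) hA0.le
      · have h1 : tot (bS (Sum.inl (Sum.inr b))) = -(θ ^ (b : ℕ) * x) := by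
          simp [tot, bS, hφ]
        rw [h1]
        simp only [map_neg, norm_neg, map_mul, map_pow, norm_mul, norm_pow, hρ]
        exact mul_le_mul (hpowA _ (by omega)) (le_max_left _ _) (norm_nonneg _) hA0.le
      · have h1 : tot (bS (Sum.inr j)) = θ ^ ((j : Fin n) : ℕ) * y := by
          simp [tot, bS, Fintype.linearCombination_apply_single]
        rw [h1]
        simp only [map_mul, map_pow, norm_mul, norm_pow, hρ]
        exact mul_le_mul (hpowA _ (Fin.is_lt _)) (le_max_right _ _) (norm_nonneg _) hA0.le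
    calc ∑ j, ‖ℓ (Sum.inr r) (bS j)‖ ^ 2 ≤ ∑ _j : (Fin T ⊕ Fin T) ⊕ J, A ^ 2 * μ (E r) ^ 2 :=
          Finset.sum_le_sum fun j _ => hb j
      _ = ((n + s : ℕ) : ℝ) * A ^ 2 * μ (E r) ^ 2 := by
          rw [Finset.sum_const, Finset.card_univ, Fintype.card_sum, Fintype.card_sum,
            Fintype.card_fin, Fintype.card_coe, nsmul_eq_mul, mul_assoc]
          congr 2
          omega
  have hup : ‖(Matrix.of fun i j => ℓ i ((bS.reindex g) j)).det‖ ^ 2 ≤
      (T : ℝ) ^ s * ((((n + s : ℕ) : ℝ) * A ^ 2) ^ n * (∏ σ, μ σ) ^ 2) := by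
    refine (hadamard _).trans ?_
    rw [Fintype.prod_sum_type]
    refine mul_le_mul ?_ ?_ ?_ (by positivity)
    · calc ∏ i : Fin s, ∑ j, ‖(Matrix.of fun i j => ℓ i ((bS.reindex g) j)) (Sum.inl i) j‖ ^ 2
          ≤ ∏ _i : Fin s, (T : ℝ) :=
            Finset.prod_le_prod (fun i _ => Finset.sum_nonneg fun _ _ => by positivity)
              (fun i _ => hrow1 i)
        _ = _ := by rw [Finset.prod_const, Finset.card_univ, Fintype.card_fin]
    · calc ∏ r : Q ⊕ J, ∑ j, ‖(Matrix.of fun i j => ℓ i ((bS.reindex g) j)) (Sum.inr r) j‖ ^ 2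
          ≤ ∏ r : Q ⊕ J, (((n + s : ℕ) : ℝ) * A ^ 2 * μ (E r) ^ 2) :=
            Finset.prod_le_prod (fun i _ => Finset.sum_nonneg fun _ _ => by positivity)
              (fun i _ => hrow2 i)
        _ = _ := by
            rw [Finset.prod_mul_distrib, Finset.prod_const, Finset.card_univ, hcard,
              Embeddings.card, hn, Finset.prod_pow]
            congr 2
            exact Equiv.prod_comp E μ
    · exact Finset.prod_nonneg fun i _ => Finset.sum_nonneg fun _ _ => by positivity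
  -- conclusion
  have hN : (0 : ℝ) < (I.absNorm : ℝ) := by
    have : I.absNorm ≠ 0 := by
      rw [Ne, Ideal.absNorm_eq_zero_iff]
      intro h
      rw [h, Ideal.mem_bot] at hyI
      exact hy hyI
    exact_mod_cast Nat.pos_of_ne_zero this
  have hprod : ∏ σ, μ σ = (I.absNorm : ℝ) * mulHeight₁ ((x : K) / (y : K)) := prod_max_eq x y hy
  rw [← hbS, hdet1, mul_pow, hY, hprod] at hup
  have h5 : (0 : ℝ) < (I.absNorm : ℝ) ^ 2 := by positivity
  refine le_of_mul_le_mul_left ?_ h5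
  have h6 : (0 : ℝ) ≤ (s : ℝ) ^ s * ∏ i, m i ^ 2 := by positivity
  calc (I.absNorm : ℝ) ^ 2 * (|(discr K : ℝ)| * (s : ℝ) ^ s * ∏ i, m i ^ 2)
      = ((s : ℝ) ^ s * ∏ i, m i ^ 2) * ((I.absNorm : ℝ) ^ 2 * |(discr K : ℝ)|) := by ring
    _ ≤ ((s : ℝ) ^ s * ∏ i, m i ^ 2) * ‖(conjMat E η).det‖ ^ 2 :=
        mul_le_mul_of_nonneg_left hlow h6
    _ ≤ _ := hup
    _ = _ := by ring

end Pool.Agent.Y730.RD
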