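import Mathlib
import Pool.Agent.Y730.RD.Rep
import Pool.Agent.Y730.RD.Step3
import Pool.Agent.Y730.RD.PolyEnd

/-!
# Small points of `ℚ(a^{1/n})` for large `n`
-/

set_option autoImplicit false

open NumberField Module Height Polynomial

namespace Pool.Agent.Y730.RD

variable {K : Type*} [Field K] [NumberField K]

lemma gen_poly {R : Type*} [CommRing R] {n : ℕ} (θ : R)
    (hgen : LinearIndependent ℤ (fun i : Fin n => θ ^ (i : ℕ))) (f : ℤ[X])
    (hf : f.natDegree < n) (h0 : aeval θ f = 0) : f = 0 := by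
  rw [aeval_eq_sum_range' hf, ← Fin.sum_univ_eq_sum_range (fun i => f.coeff i • θ ^ i) n] at h0
  rw [Fintype.linearIndependent_iff] at hgen
  have h1 := hgen (fun i => f.coeff i) h0
  ext i
  rw [coeff_zero]
  by_cases hi : i < n
  · exact h1 ⟨i, hi⟩
  · exact coeff_eq_zero_of_natDegree_lt (by omega)

lemma log_facts : (0.6931 : ℝ) < Real.log 2 ∧ Real.log 2 < 0.6932 ∧
    19 * Real.log 2 ≤ 12 * Real.log 3 := by
  refine ⟨by linarith [Real.log_two_gt_d9], by linarith [Real.log_two_lt_d9], ?_⟩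
  have h1 : Real.log ((2 : ℝ) ^ 19) ≤ Real.log ((3 : ℝ) ^ 12) :=
    Real.log_le_log (by positivity) (by norm_num)
  rw [Real.log_pow, Real.log_pow] at h1
  push_cast at h1
  linarith

/-- **Small points for large exponents.** -/
theorem main_large {n a : ℕ} (hn : finrank ℚ K = n) (hn100 : 100 ≤ n) (ha : 2 ≤ a) (θ : 𝓞 K)
    (hθ : θ ^ n = a) (hgen : LinearIndependent ℤ (fun i : Fin n => θ ^ (i : ℕ)))
    (Λ : ℝ) (hΛ : 1 ≤ Λ) (hΛ' : 40 * Real.log Λ ≤ n * Real.log a)
    (hD : (n : ℝ) ^ n * (a : ℝ) ^ (n - 1) ≤ |(discr K : ℝ)| * Λ ^ 2)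
    (α : K) (hα : α ≠ 0) (hH : 4000 * Real.log (mulHeight₁ α) < n) :
    ∃ i j : ℕ, α * (θ : K) ^ j = (θ : K) ^ i ∨ α * (θ : K) ^ j = -(θ : K) ^ i := by
  obtain ⟨hl2, hl2', hl3⟩ := log_facts
  have ha0 : (0 : ℝ) < a := by positivity
  have hn0 : 0 < n := by omega
  have hnr : (0 : ℝ) < n := by exact_mod_cast hn0
  have hn100r : (100 : ℝ) ≤ n := by exact_mod_cast hn100
  set L := Real.log a with hL
  have hL2 : 0.6931 < L := by
    have : Real.log 2 ≤ L := Real.log_le_log (by norm_num) (by exact_mod_cast ha)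
    linarith
  -- the absolute value of `θ`
  set ρ : ℝ := (a : ℝ) ^ ((n : ℝ)⁻¹) with hρdef
  have hρn : ρ ^ n = a := Real.rpow_inv_natCast_pow ha0.le hn0.ne'
  have hρ1 : 1 ≤ ρ := Real.one_le_rpow (by exact_mod_cast (by omega : 1 ≤ a)) (by positivity)
  have hρ0 : 0 < ρ := by linarith
  have hρ : ∀ σ : K →+* ℂ, ‖σ θ‖ = ρ := by
    intro σ
    have h1 : ‖σ θ‖ ^ n = ρ ^ n := by
      rw [hρn, ← norm_pow, ← map_pow]
      have h2 : ((θ : K)) ^ n = ((a : ℕ) : K) := by
        have := congrArg (algebraMap (𝓞 K) K) hθ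
        simpa using this
      rw [h2, map_natCast]
      simp
    exact (pow_left_inj₀ (norm_nonneg _) hρ0.le hn0.ne').1 h1
  have hlogρ : n * Real.log ρ = L := by
    rw [← Real.log_pow, hρn]
  have hgen' := gen_poly θ hgen
  -- numerator and denominator
  obtain ⟨x, y, hy, hxy⟩ := IsFractionRing.div_surjective (𝓞 K) α
  have hy0 : y ≠ 0 := nonZeroDivisors.ne_zero hy
  have hx0 : x ≠ 0 := by
    rintro rfl
    rw [map_zero, zero_div] at hxy
    exact hα hxy.symm
  have hxy' : (x : K) / (y : K) = α := hxy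
  set H := mulHeight₁ α with hHdef
  have hH1 : 1 ≤ H := one_le_mulHeight₁ α
  have hH0 : 0 < H := by linarith
  set lH := Real.log H with hlH
  have hlH0 : 0 ≤ lH := Real.log_nonneg hH1
  -- parameters
  set k := ⌈83 * L⌉₊ with hk
  have hk1 : 83 * L ≤ k := Nat.le_ceil _
  have hk2 : (k : ℝ) ≤ 84.5 * L := by
    have := Nat.ceil_lt_add_one (a := 83 * L) (by positivity)
    rw [← hk] at this
    linarith
  have hk57 : 57 < k := by
    have : (57 : ℝ) < k := by linarith
    exact_mod_cast this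
  set T := n / 3 with hT
  have hT10 : (n : ℝ) ^ 2 ≤ 10 * (T * (T + 1) : ℕ) := by
    have h1 : n ≤ 3 * T + 2 := by omega
    have h2 : n ^ 2 ≤ 10 * (T * (T + 1)) := by nlinarith
    exact_mod_cast h2
  -- dependence of the powers
  have hdep : ∀ j, 1 ≤ j → j ≤ k → ∃ P₀ P₁, Rep θ T (x ^ j) (y ^ j) P₀ P₁ := by
    intro j hj1 hjk
    apply rep_of_dependent θ hgen' (by omega) _ _ (pow_ne_zero _ hx0) (pow_ne_zero _ hy0)
    intro hli
    have h1 := step1 hn θ ρ hρ1 hρn hρ hgen (x ^ j) (y ^ j) (pow_ne_zero _ hy0) hli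
    have h2 : ((x ^ j : 𝓞 K) : K) / ((y ^ j : 𝓞 K) : K) = α ^ j := by
      rw [← hxy', div_pow]
      push_cast
      rfl
    rw [h2, mulHeight₁_pow, ← hHdef] at h1
    have hF : (0 : ℝ) < (n : ℝ) ^ n * (a : ℝ) ^ (n - 1) := by positivity
    have h3 : ρ ^ (T * (T + 1)) ≤ Λ ^ 2 * (H ^ j) ^ 2 := by
      refine le_of_mul_le_mul_left ?_ hF
      calc (n : ℝ) ^ n * (a : ℝ) ^ (n - 1) * ρ ^ (T * (T + 1))
          ≤ (|(discr K : ℝ)| * Λ ^ 2) * ρ ^ (T * (T + 1)) :=
            mul_le_mul_of_nonneg_right hD (by positivity)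
        _ = (|(discr K : ℝ)| * ρ ^ (T * (T + 1))) * Λ ^ 2 := by ring
        _ ≤ ((n : ℝ) ^ n * (a : ℝ) ^ (n - 1) * (H ^ j) ^ 2) * Λ ^ 2 :=
            mul_le_mul_of_nonneg_right h1 (by positivity)
        _ = _ := by ring
    have h4 := Real.log_le_log (by positivity) h3
    rw [Real.log_mul (by positivity) (by positivity), Real.log_pow, Real.log_pow, Real.log_pow,
      Real.log_pow, ← hlH] at h4
    have h5 : (n : ℝ) ^ 2 * L ≤ 10 * (n * (2 * Real.log Λ + 2 * (j * lH))) := by
      calc (n : ℝ) ^ 2 * L ≤ 10 * (T * (T + 1) : ℕ) * L :=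
            mul_le_mul_of_nonneg_right hT10 (by linarith)
        _ = 10 * (n * ((T * (T + 1) : ℕ) * Real.log ρ)) := by rw [← hlogρ]; ring
        _ ≤ 10 * (n * (2 * Real.log Λ + 2 * (j * lH))) := by
            push_cast at h4 ⊢
            gcongr
    have h6 : (n : ℝ) * L ≤ 10 * (2 * Real.log Λ + 2 * (j * lH)) := by
      refine le_of_mul_le_mul_left ?_ hnr
      calc (n : ℝ) * (n * L) = (n : ℝ) ^ 2 * L := by ring
        _ ≤ _ := h5
        _ = _ := by ring
    have h7 : (j : ℝ) * lH ≤ 84.5 * L * (n / 4000) := by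
      have hjk' : (j : ℝ) ≤ 84.5 * L := le_trans (by exact_mod_cast hjk) hk2
      have : lH ≤ n / 4000 := by linarith
      exact mul_le_mul hjk' this hlH0 (by positivity)
    have h8 : 0 < (n : ℝ) * L := by positivity
    nlinarith
  obtain ⟨P₀, P₁, hP⟩ := hdep 1 le_rfl (by omega)
  rw [pow_one, pow_one] at hP
  have hboot := boot (k := k) θ hgen' (by omega : 3 * T ≤ n) x y hx0 hy0 hdep P₀ P₁ hP k (by omega)
    le_rfl
  obtain ⟨hP₀, hP₁, hrel, -, -, hPe⟩ := hP
  set e := max P₀.natDegree P₁.natDegree with he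
  -- the prime
  obtain ⟨s, hs, hs1, hs2⟩ := Nat.exists_prime_lt_and_le_two_mul (n / 6) (by omega)
  have hs0 : 0 < s := hs.pos
  set ζ : ℂ := Complex.exp (2 * Real.pi * Complex.I / s) with hζdef
  have hζ : IsPrimitiveRoot ζ s := Complex.isPrimitiveRoot_exp s hs0.ne'
  have hke : k * e < n / 3 := hboot
  have he57 : 57 * e ≤ k * e := Nat.mul_le_mul_right _ hk57.le
  -- step 3
  have hmaxdeg : max (P₀ ^ k).natDegree (P₁ ^ k).natDegree = k * e := by
    rw [natDegree_pow, natDegree_pow, he, Nat.mul_max_mul_left]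
  have h3 := step3 (s := s) (T := s + k * e) hn θ ρ (a : ℝ) hρ1 hρn.le hρ hgen hgen' (x ^ k) (y ^ k)
    (pow_ne_zero _ hy0) (P₀ ^ k) (P₁ ^ k) (pow_ne_zero _ hP₁) hrel.pow
    (by
      rw [map_pow, map_pow, ← mul_pow, ← mul_pow, mul_comm x, ← hPe, mul_comm y])
    (by rw [hmaxdeg]) (by rw [hmaxdeg]; omega) hs0 ζ hζ
  have h2 : ((x ^ k : 𝓞 K) : K) / ((y ^ k : 𝓞 K) : K) = α ^ k := by
    rw [← hxy', div_pow]
    push_cast
    rfl
  rw [h2, mulHeight₁_pow, ← hHdef] at h3
  set M := ∏ i : Fin s, mx P₀ P₁ (ζ ^ (i : ℕ)) with hM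
  have hprod : ∏ i : Fin s, (max ‖aeval (ζ ^ (i : ℕ)) (P₀ ^ k)‖ ‖aeval (ζ ^ (i : ℕ)) (P₁ ^ k)‖) ^ 2 =
      M ^ (2 * k) := by
    rw [hM, ← Finset.prod_pow]
    refine Finset.prod_congr rfl fun i _ => ?_
    rw [map_pow, map_pow, norm_pow, norm_pow, mul_comm 2 k, pow_mul]
    congr 1
    rw [mx]
    rcases le_total ‖aeval (ζ ^ (i : ℕ)) P₀‖ ‖aeval (ζ ^ (i : ℕ)) P₁‖ with h | h
    · rw [max_eq_right h, max_eq_right (pow_le_pow_left₀ (norm_nonneg _) h k)]
    · rw [max_eq_left h, max_eq_left (pow_le_pow_left₀ (norm_nonneg _) h k)]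
  rw [hprod] at h3
  have hM0 : 0 ≤ M := Finset.prod_nonneg fun _ _ => mx_nonneg _ _ _
  have hfin : 2 ^ (s - 1) * M ^ 4 < 3 ^ (s - 1) := by
    by_contra hcon
    push Not at hcon
    have hMpos : 0 < M := by
      rcases hM0.lt_or_eq with h | h
      · exact h
      · exfalso
        rw [← h] at hcon
        have : (0 : ℝ) < 3 ^ (s - 1) := by positivity
        norm_num at hcon
        linarith
    set lM := Real.log M with hlM
    have hsr : (0 : ℝ) < s := by exact_mod_cast hs0
    have hDpos : 0 < |(discr K : ℝ)| := by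
      rw [abs_pos]
      exact_mod_cast NumberField.discr_ne_zero K
    have hΛ0 : 0 < Λ := by linarith
    -- logarithms of the three inequalities
    have hc1 : ((s - 1 : ℕ) : ℝ) * Real.log 3 ≤ ((s - 1 : ℕ) : ℝ) * Real.log 2 + 4 * lM := by
      have := Real.log_le_log (by positivity) hcon
      rw [Real.log_mul (by positivity) (by positivity), Real.log_pow, Real.log_pow,
        Real.log_pow] at this
      push_cast at this ⊢
      linarith
    have hc2 : Real.log |(discr K : ℝ)| + s * Real.log s + 2 * k * lM ≤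
        s * Real.log (s + k * e : ℕ) + n * (Real.log (n + s : ℕ) + 2 * L) + 2 * k * lH := by
      have hT0 : (0 : ℝ) < (s + k * e : ℕ) := by
        exact_mod_cast (by omega : 0 < s + k * e)
      have hns0 : (0 : ℝ) < (n + s : ℕ) := by
        exact_mod_cast (by omega : 0 < n + s)
      have := Real.log_le_log (by positivity) h3
      rw [Real.log_mul (by positivity) (by positivity), Real.log_mul (by positivity) (by positivity),
        Real.log_mul (by positivity) (by positivity), Real.log_mul (by positivity) (by positivity),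
        Real.log_pow, Real.log_pow, Real.log_pow, Real.log_pow, Real.log_pow, Real.log_pow,
        Real.log_mul (by positivity) (by positivity), Real.log_pow] at this
      push_cast at this ⊢
      linarith
    have hc3 : n * Real.log n + (n - 1 : ℕ) * L ≤ Real.log |(discr K : ℝ)| + 2 * Real.log Λ := by
      have := Real.log_le_log (by positivity) hD
      rw [Real.log_mul (by positivity) (by positivity), Real.log_mul (by positivity) (by positivity),
        Real.log_pow, Real.log_pow, Real.log_pow] at this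
      push_cast at this ⊢
      linarith
    have hn1 : ((n - 1 : ℕ) : ℝ) = n - 1 := by
      rw [Nat.cast_sub (by omega), Nat.cast_one]
    rw [hn1] at hc3
    -- elementary estimates
    have he1 : Real.log (s + k * e : ℕ) ≤ 2 * Real.log 2 + Real.log s := by
      have h4 : Real.log ((s + k * e : ℕ) : ℝ) ≤ Real.log (4 * s) := by
        apply Real.log_le_log
        · exact_mod_cast (by omega : 0 < s + k * e)
        · exact_mod_cast (by omega : s + k * e ≤ 4 * s)
      rw [Real.log_mul (by norm_num) hsr.ne', show (4 : ℝ) = 2 ^ 2 by norm_num, Real.log_pow] at h4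
      push_cast at h4 ⊢
      linarith
    have he2 : Real.log (n + s : ℕ) ≤ Real.log 2 / 2 + Real.log n := by
      have h4 : Real.log ((n + s : ℕ) : ℝ) ≤ Real.log (4 / 3 * n) := by
        apply Real.log_le_log
        · exact_mod_cast (by omega : 0 < n + s)
        · have h5 : 3 * (n + s) ≤ 4 * n := by omega
          have h6 : (3 : ℝ) * ((n + s : ℕ) : ℝ) ≤ 4 * n := by exact_mod_cast h5
          linarith
      rw [Real.log_mul (by norm_num) hnr.ne'] at h4
      have h5 : 2 * Real.log (4 / 3) ≤ Real.log 2 := by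
        have h6 : Real.log ((4 / 3 : ℝ) ^ 2) ≤ Real.log 2 :=
          Real.log_le_log (by positivity) (by norm_num)
        rw [Real.log_pow] at h6
        push_cast at h6
        exact h6
      linarith
    have he3 : (n : ℝ) / 7 ≤ ((s - 1 : ℕ) : ℝ) := by
      have h4 : n ≤ 7 * (s - 1) := by omega
      have h5 : (n : ℝ) ≤ 7 * ((s - 1 : ℕ) : ℝ) := by exact_mod_cast h4
      linarith
    have he4 : (s : ℝ) ≤ n / 3 := by
      have h4 : 3 * s ≤ n := by omega
      have h5 : (3 : ℝ) * s ≤ n := by exact_mod_cast h4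
      linarith
    have hkr : (0 : ℝ) < k := by exact_mod_cast (by omega : 0 < k)
    -- combination
    have hd1 : 2 * k * lM ≤ 2 * Real.log Λ + 2 * (s * Real.log 2) + n * (Real.log 2 / 2) +
        (n + 1) * L + 2 * k * lH := by
      have h4 := mul_le_mul_of_nonneg_left he1 hsr.le
      have h5 := mul_le_mul_of_nonneg_left he2 hnr.le
      linarith
    have hd2 : (n : ℝ) / 7 * (7 / 12 * Real.log 2) ≤ 4 * lM := by
      have h4 : ((s - 1 : ℕ) : ℝ) * (7 / 12 * Real.log 2) ≤
          ((s - 1 : ℕ) : ℝ) * (Real.log 3 - Real.log 2) :=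
        mul_le_mul_of_nonneg_left (by linarith) (Nat.cast_nonneg _)
      have h5 : (n : ℝ) / 7 * (7 / 12 * Real.log 2) ≤
          ((s - 1 : ℕ) : ℝ) * (7 / 12 * Real.log 2) :=
        mul_le_mul_of_nonneg_right he3 (by linarith)
      linarith
    have hd3 : (k : ℝ) * (n * (Real.log 2 / 12)) ≤ 4 * k * lM := by
      have := mul_le_mul_of_nonneg_left hd2 hkr.le
      linarith
    have hd4 : (s : ℝ) * Real.log 2 ≤ n / 3 * Real.log 2 :=
      mul_le_mul_of_nonneg_right he4 (by linarith)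
    have hd5 : (k : ℝ) * lH ≤ k * (n / 4000) := mul_le_mul_of_nonneg_left (by linarith) hkr.le
    have hd6 : (n + 1 : ℝ) * L ≤ 1.01 * n * L :=
      mul_le_mul_of_nonneg_right (by linarith) (by linarith)
    have hd7 : (k : ℝ) * (n * (Real.log 2 / 12)) ≤ n * (L / 10) + 4 / 3 * (n * Real.log 2) +
        n * Real.log 2 + 2.02 * (n * L) + k * n / 1000 := by
      nlinarith
    have hd8 : (k : ℝ) * (Real.log 2 / 12) ≤ L / 10 + 4 / 3 * Real.log 2 + Real.log 2 + 2.02 * L +
        k / 1000 := by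
      refine le_of_mul_le_mul_left ?_ hnr
      linarith
    have hd9 : (k : ℝ) * (0.6931 / 12) ≤ k * (Real.log 2 / 12) :=
      mul_le_mul_of_nonneg_left (by linarith) hkr.le
    nlinarith
  obtain ⟨⟨i, hi⟩, ⟨j, hj⟩⟩ :=
    poly_end hs (by omega) P₀ P₁ hP₀ hP₁ hrel ζ hζ (by rw [← he]; omega) hfin
  refine ⟨i, j, ?_⟩
  have hPeK : (aeval (θ : K) P₀) * (y : K) = (aeval (θ : K) P₁) * (x : K) := by
    have h4 := congrArg (algebraMap (𝓞 K) K) hPe
    rw [map_mul, map_mul, ← aeval_algebraMap_apply, ← aeval_algebraMap_apply] at h4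
    exact h4
  have hyK : (y : K) ≠ 0 := by exact_mod_cast hy0
  have hα' : α * (y : K) = x := by rw [← hxy', div_mul_cancel₀ _ hyK]
  rw [← hα'] at hPeK
  have hPe2 : aeval (θ : K) P₀ = aeval (θ : K) P₁ * α := by
    apply mul_right_cancel₀ hyK
    rw [hPeK]
    ring
  rcases hi with hi | hi <;> rcases hj with hj | hj
  · left
    rw [hi, hj] at hPe2
    simp only [map_pow, aeval_X] at hPe2
    rw [hPe2]; ring
  · right
    rw [hi, hj] at hPe2
    simp only [map_neg, map_pow, aeval_X] at hPe2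
    rw [hPe2]; ring
  · right
    rw [hi, hj] at hPe2
    simp only [map_neg, map_pow, aeval_X] at hPe2
    rw [hPe2]; ring
  · left
    rw [hi, hj] at hPe2
    simp only [map_neg, map_pow, aeval_X] at hPe2
    linear_combination hPe2

end Pool.Agent.Y730.RD
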