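import Mathlib
import Pool.Agent.Y730.RD.Det

/-!
# The power basis of `ℚ(a^{1/n})` and its discriminant
-/

set_option autoImplicit false

open NumberField Module Polynomial

namespace Pool.Agent.Y730.RD

lemma exists_prime_exact {a : ℕ} (ha : Squarefree a) (ha2 : 2 ≤ a) :
    ∃ q : ℕ, q.Prime ∧ q ∣ a ∧ ¬ q ^ 2 ∣ a := by
  obtain ⟨q, hq, hqa⟩ := Nat.exists_prime_and_dvd (by omega : a ≠ 1)
  refine ⟨q, hq, hqa, fun h => ?_⟩
  have := ha q (by rw [← pow_two]; exact h)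
  exact hq.not_isUnit this

lemma eis_at {a n q : ℕ} (hn : 0 < n) (hq : q.Prime) (hqa : q ∣ a) (hqa2 : ¬ q ^ 2 ∣ a) :
    ((X : ℤ[X]) ^ n - C (a : ℤ)).IsEisensteinAt (Ideal.span {(q : ℤ)}) := by
  have hmonic : ((X : ℤ[X]) ^ n - C (a : ℤ)).Monic := monic_X_pow_sub_C _ hn.ne'
  have hdeg : ((X : ℤ[X]) ^ n - C (a : ℤ)).natDegree = n := natDegree_X_pow_sub_C
  refine ⟨?_, ?_, ?_⟩
  · rw [hmonic.leadingCoeff, Ideal.mem_span_singleton]
    intro h
    have h1 : q ∣ 1 := by exact_mod_cast h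
    exact hq.one_lt.ne' (Nat.dvd_one.1 h1)
  · intro i hi
    rw [hdeg] at hi
    rw [Ideal.mem_span_singleton, coeff_sub, coeff_X_pow, if_neg (by omega), coeff_C, zero_sub,
      dvd_neg]
    split_ifs
    · exact_mod_cast hqa
    · exact dvd_zero _
  · rw [Ideal.span_singleton_pow, Ideal.mem_span_singleton, coeff_sub, coeff_X_pow,
      if_neg (by omega), coeff_C_zero, zero_sub, dvd_neg]
    intro h
    exact hqa2 (by exact_mod_cast h)

lemma irr_int {a n : ℕ} (ha : Squarefree a) (ha2 : 2 ≤ a) (hn : 0 < n) :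
    Irreducible ((X : ℤ[X]) ^ n - C (a : ℤ)) := by
  obtain ⟨q, hq, hqa, hqa2⟩ := exists_prime_exact ha ha2
  refine (eis_at hn hq hqa hqa2).irreducible ?_ (monic_X_pow_sub_C _ hn.ne').isPrimitive
    (by rw [natDegree_X_pow_sub_C]; exact hn)
  rw [Ideal.span_singleton_prime (by exact_mod_cast hq.ne_zero)]
  exact Nat.prime_iff_prime_int.1 hq

lemma irr_rat {a n : ℕ} (ha : Squarefree a) (ha2 : 2 ≤ a) (hn : 0 < n) :
    Irreducible ((X : ℚ[X]) ^ n - C (a : ℚ)) := by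
  have h := (monic_X_pow_sub_C (a : ℤ) hn.ne').irreducible_iff_irreducible_map_fraction_map
    (K := ℚ) |>.1 (irr_int ha ha2 hn)
  rw [Polynomial.map_sub, Polynomial.map_pow, map_X, map_C] at h
  simpa using h

lemma minpoly_rat {L : Type*} [Field L] [Algebra ℚ L] {a n : ℕ} (ha : Squarefree a) (ha2 : 2 ≤ a)
    (hn : 0 < n) (θ : L) (hθ : θ ^ n = (a : L)) : minpoly ℚ θ = (X : ℚ[X]) ^ n - C (a : ℚ) := by
  refine (minpoly.eq_of_irreducible_of_monic (irr_rat ha ha2 hn) ?_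
    (monic_X_pow_sub_C _ hn.ne')).symm
  rw [map_sub, map_pow, aeval_X, aeval_C, hθ]
  simp

lemma theta_integral {L : Type*} [Field L] {a n : ℕ} (hn : 0 < n) (θ : L)
    (hθ : θ ^ n = (a : L)) : IsIntegral ℤ θ := by
  apply IsIntegral.of_pow hn
  rw [hθ]
  have := isIntegral_algebraMap (R := ℤ) (A := L) (x := (a : ℤ))
  simpa using this

lemma minpoly_int {L : Type*} [Field L] [Algebra ℚ L] [CharZero L] {a n : ℕ} (ha : Squarefree a)
    (ha2 : 2 ≤ a) (hn : 0 < n) (θ : L) (hθ : θ ^ n = (a : L)) :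
    minpoly ℤ θ = (X : ℤ[X]) ^ n - C (a : ℤ) := by
  have h1 := minpoly.isIntegrallyClosed_eq_field_fractions' ℚ (theta_integral hn θ hθ)
  rw [minpoly_rat ha ha2 hn θ hθ] at h1
  apply Polynomial.map_injective (algebraMap ℤ ℚ) (algebraMap ℤ ℚ).injective_int
  rw [← h1, Polynomial.map_sub, Polynomial.map_pow, map_X, map_C]
  simp

variable {K : Type*} [Field K] [NumberField K]

lemma exists_pb {a n : ℕ} (ha : Squarefree a) (ha2 : 2 ≤ a) (hn : 0 < n)
    (hK : finrank ℚ K = n) (θ : K) (hθ : θ ^ n = (a : K)) :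
    ∃ pb : PowerBasis ℚ K, pb.gen = θ ∧ pb.dim = n ∧
      ∃ u : ℚ, |u| = 1 ∧ Algebra.discr ℚ pb.basis = u * ((n : ℚ) ^ n * (a : ℚ) ^ (n - 1)) := by
  have hmin := minpoly_rat ha ha2 hn θ hθ
  have htop : IntermediateField.adjoin ℚ {θ} = ⊤ := by
    rw [Field.primitive_element_iff_minpoly_natDegree_eq, hmin, natDegree_X_pow_sub_C, hK]
  have hint : IsIntegral ℚ θ := IsIntegral.of_finite ℚ θ
  have htop' : Algebra.adjoin ℚ {θ} = ⊤ := by
    rw [← IntermediateField.adjoin_simple_toSubalgebra_of_isAlgebraic hint.isAlgebraic, htop]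
    rfl
  let pb := PowerBasis.ofAdjoinEqTop hint htop'
  have hgen : pb.gen = θ := PowerBasis.ofAdjoinEqTop_gen hint htop'
  have hdim : pb.dim = n := by
    rw [PowerBasis.ofAdjoinEqTop_dim, hmin, natDegree_X_pow_sub_C]
  refine ⟨pb, hgen, hdim, ?_⟩
  have hnorm : Algebra.norm ℚ θ = (-1) ^ n * (-(a : ℚ)) := by
    conv_lhs => rw [← hgen]
    rw [Algebra.PowerBasis.norm_gen_eq_coeff_zero_minpoly, hgen, hdim, hmin, coeff_sub,
      coeff_X_pow, if_neg (by omega), coeff_C_zero, zero_sub]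
  have hder : aeval pb.gen (derivative (minpoly ℚ pb.gen)) = (n : K) * θ ^ (n - 1) := by
    rw [hgen, hmin]
    simp [derivative_X_pow]
  rw [Algebra.discr_powerBasis_eq_norm, hder, map_mul, map_pow, hnorm]
  have h1 : Algebra.norm ℚ (n : K) = (n : ℚ) ^ n := by
    have := Algebra.norm_algebraMap (R := ℚ) (S := K) (n : ℚ)
    rw [hK] at this
    simpa using this
  rw [h1]
  refine ⟨(-1) ^ (n * (n - 1) / 2) * ((-1) ^ n * (-1)) ^ (n - 1), ?_, ?_⟩
  · simp [abs_mul, abs_pow]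
  · rw [hK]
    rw [show (-1 : ℚ) ^ n * -(a : ℚ) = ((-1) ^ n * (-1)) * a by ring, mul_pow _ (a : ℚ)]
    ring

end Pool.Agent.Y730.RD
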