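import Mathlib

/-!
# Orders of a number field which are regular above a prime
-/

set_option autoImplicit false

open NumberField Module

namespace Pool.Agent.Y730.RD

/-- A prime ideal of a Noetherian domain which is locally generated by one element: elements of
the fraction field which are integral over the domain have denominators outside of the ideal. -/
lemma regular_denominator {B K : Type*} [CommRing B] [IsDomain B] [IsNoetherianRing B] [Field K]
    [Algebra B K] [IsFractionRing B K] (m : Ideal B) [hm : m.IsPrime] (t : B) (ht : t ∈ m)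
    (hprin : ∀ x ∈ m, ∃ s, s ∉ m ∧ ∃ y, s * x = t * y) (z : K) (hz : IsIntegral B z) :
    ∃ s, s ∉ m ∧ ∃ b : B, algebraMap B K s * z = algebraMap B K b := by
  have hS : m.primeCompl ≤ nonZeroDivisors B := m.primeCompl_le_nonZeroDivisors
  let R := Localization.subalgebra.ofField K m.primeCompl hS
  haveI hloc : IsLocalization.AtPrime R m :=
    Localization.subalgebra.isLocalization_ofField K m.primeCompl hS
  haveI : IsLocalRing R := IsLocalization.AtPrime.isLocalRing R m
  haveI : IsNoetherianRing R := IsLocalization.isNoetherianRing m.primeCompl R inferInstance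
  haveI : IsFractionRing R K := Localization.subalgebra.isFractionRing_ofField K m.primeCompl hS
  have hmap : IsLocalRing.maximalIdeal R = Ideal.span {algebraMap B R t} := by
    rw [← IsLocalization.AtPrime.map_eq_maximalIdeal m R]
    apply le_antisymm
    · rw [Ideal.map_le_iff_le_comap]
      intro x hx
      obtain ⟨s, hs, y, hy⟩ := hprin x hx
      rw [Ideal.mem_comap, Ideal.mem_span_singleton]
      have hu : IsUnit (algebraMap B R s) := IsLocalization.map_units R (⟨s, hs⟩ : m.primeCompl)
      have h1 : algebraMap B R t ∣ algebraMap B R s * algebraMap B R x := by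
        rw [← map_mul, hy, map_mul]
        exact dvd_mul_right _ _
      exact (hu.dvd_mul_left).1 h1
    · rw [Ideal.span_le, Set.singleton_subset_iff]
      exact Ideal.mem_map_of_mem _ ht
  have hprinc : (IsLocalRing.maximalIdeal R).IsPrincipal := ⟨⟨_, hmap⟩⟩
  haveI : IsPrincipalIdealRing R :=
    ((tfae_of_isNoetherianRing_of_isLocalRing_of_isDomain R).out 0 4).mpr hprinc
  have hint : IsIntegral R z := hz.tower_top
  obtain ⟨w, hw⟩ := (IsIntegrallyClosed.isIntegral_iff (R := R) (K := K)).1 hint
  obtain ⟨⟨b, s⟩, hbs⟩ := IsLocalization.surj m.primeCompl w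
  refine ⟨s, s.2, b, ?_⟩
  have h2 := congrArg (algebraMap R K) hbs
  rw [map_mul, hw, ← IsScalarTower.algebraMap_apply, ← IsScalarTower.algebraMap_apply] at h2
  rw [mul_comm]
  exact h2

/-- An order which is regular above the prime `p` is `p`-maximal. -/
lemma maximal_of_regular {K : Type*} [Field K] [NumberField K] (B : Subalgebra ℤ (𝓞 K))
    (D : ℤ) (hD0 : D ≠ 0) (hD : ∀ z : 𝓞 K, D • z ∈ B) (p : ℕ)
    (hreg : ∀ m : Ideal B, m.IsMaximal → (p : B) ∈ m →
      ∃ t ∈ m, ∀ x ∈ m, ∃ s, s ∉ m ∧ ∃ y, s * x = t * y)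
    (z : 𝓞 K) (hz : (p : 𝓞 K) * z ∈ B) : z ∈ B := by
  haveI : IsNoetherian ℤ B := isNoetherian_submodule' (Subalgebra.toSubmodule B)
  haveI : IsNoetherianRing B := isNoetherian_of_tower ℤ inferInstance
  haveI hinj : FaithfulSMul B K := by
    rw [faithfulSMul_iff_algebraMap_injective]
    intro x y hxy
    have h1 : ((x : 𝓞 K) : K) = ((y : 𝓞 K) : K) := hxy
    exact Subtype.ext (by exact_mod_cast h1)
  haveI : IsFractionRing B K := by
    refine IsFractionRing.of_field B K fun w => ?_
    obtain ⟨x, y, hy, hxy⟩ := IsFractionRing.div_surjective (A := 𝓞 K) w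
    refine ⟨⟨D • x, hD x⟩, ⟨D • y, hD y⟩, ?_⟩
    have h1 : algebraMap B K ⟨D • x, hD x⟩ = (D : K) * algebraMap (𝓞 K) K x := by
      change ((D • x : 𝓞 K) : K) = _
      rw [zsmul_eq_mul]
      push_cast
      rfl
    have h2 : algebraMap B K ⟨D • y, hD y⟩ = (D : K) * algebraMap (𝓞 K) K y := by
      change ((D • y : 𝓞 K) : K) = _
      rw [zsmul_eq_mul]
      push_cast
      rfl
    rw [h1, h2, mul_div_mul_left _ _ (by exact_mod_cast hD0), hxy]
  let I : Ideal B :=
    { carrier := {b | (b : 𝓞 K) * z ∈ B}
      add_mem' := by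
        intro a b ha hb
        simp only [Set.mem_setOf_eq] at ha hb ⊢
        push_cast
        rw [add_mul]
        exact B.add_mem ha hb
      zero_mem' := by
        simp only [Set.mem_setOf_eq]
        push_cast
        rw [zero_mul]
        exact B.zero_mem
      smul_mem' := by
        intro c x hx
        simp only [Set.mem_setOf_eq, smul_eq_mul] at hx ⊢
        push_cast
        rw [mul_assoc]
        exact B.mul_mem c.2 hx }
  by_contra hzB
  have hI : I ≠ ⊤ := by
    intro h
    have h1 : (1 : B) ∈ I := h ▸ Submodule.mem_top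
    have h2 : ((1 : B) : 𝓞 K) * z ∈ B := h1
    rw [Subalgebra.coe_one, one_mul] at h2
    exact hzB h2
  obtain ⟨m, hm, hIm⟩ := Ideal.exists_le_maximal I hI
  have hp : (p : B) ∈ m := hIm (by
    change ((p : B) : 𝓞 K) * z ∈ B
    push_cast
    exact hz)
  obtain ⟨t, ht, hprin⟩ := hreg m hm hp
  haveI := hm.isPrime
  have hint : IsIntegral B (z : K) := (RingOfIntegers.isIntegral_coe z).tower_top
  obtain ⟨s, hs, b, hb⟩ := regular_denominator (K := K) m t ht hprin (z : K) hint
  apply hs
  apply hIm
  change (s : 𝓞 K) * z ∈ B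
  have h3 : (s : 𝓞 K) * z = (b : 𝓞 K) := by
    apply RingOfIntegers.coe_injective
    push_cast
    exact hb
  rw [h3]
  exact b.2

end Pool.Agent.Y730.RD
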