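import Mathlib

/-!
# Polynomials modulo `p` and squarefree reductions
-/

set_option autoImplicit false

open Polynomial

namespace Pool.Agent.Y730.RD

lemma mod_hom {B : Type*} [CommRing B] (x : B) (p : ℕ) (m : Ideal B) (hp : (p : B) ∈ m) :
    ∃ ψ : (ZMod p)[X] →+* B ⧸ m, ∀ f : ℤ[X],
      ψ (f.map (Int.castRingHom (ZMod p))) = Ideal.Quotient.mk m (aeval x f) := by
  have h0 : ∀ a ∈ Ideal.span {(p : ℤ)}, Int.castRingHom (B ⧸ m) a = 0 := by
    intro a ha
    obtain ⟨b, rfl⟩ := Ideal.mem_span_singleton.1 ha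
    have h1 : ((p : ℕ) : B ⧸ m) = 0 := by
      have := Ideal.Quotient.eq_zero_iff_mem.2 hp
      simpa using this
    simp [h1]
  let ψ₀ : ZMod p →+* B ⧸ m :=
    (Ideal.Quotient.lift (Ideal.span {(p : ℤ)}) (Int.castRingHom (B ⧸ m)) h0).comp
      (Int.quotientSpanNatEquivZMod p).symm.toRingHom
  refine ⟨eval₂RingHom ψ₀ (Ideal.Quotient.mk m x), fun f => ?_⟩
  rw [coe_eval₂RingHom, eval₂_map, aeval_def, hom_eval₂]
  congr 1
  exact RingHom.ext_int _ _

lemma map_zmod_eq_zero (p : ℕ) (f : ℤ[X]) (h : f.map (Int.castRingHom (ZMod p)) = 0) :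
    ∃ w : ℤ[X], f = C (p : ℤ) * w := by
  have : C (p : ℤ) ∣ f := by
    rw [C_dvd_iff_dvd_coeff]
    intro i
    have h1 := congrArg (fun q => coeff q i) h
    simp only [coeff_map, coeff_zero] at h1
    exact (ZMod.intCast_zmod_eq_zero_iff_dvd _ p).1 h1
  exact this

lemma exists_lift (p : ℕ) (f : (ZMod p)[X]) : ∃ g : ℤ[X], g.map (Int.castRingHom (ZMod p)) = f :=
  Polynomial.map_surjective _ (ZMod.ringHom_surjective _) f

/-- If the reduction of `g` modulo `p` is squarefree, then a prime ideal containing `p` and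
`g(x)` is locally generated by `p` and `g(x)`. -/
lemma reduced_locally {B : Type*} [CommRing B] (x : B) (p : ℕ) [Fact p.Prime] (m : Ideal B)
    [hm : m.IsPrime] (hp : (p : B) ∈ m) (g f : ℤ[X])
    (hg : Squarefree (g.map (Int.castRingHom (ZMod p)))) (hgm : aeval x g ∈ m)
    (hfm : aeval x f ∈ m) :
    ∃ h : ℤ[X], aeval x h ∉ m ∧ ∃ α β : B, aeval x h * aeval x f = p * α + aeval x g * β := by
  obtain ⟨ψ, hψ⟩ := mod_hom x p m hp
  set c := Int.castRingHom (ZMod p) with hc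
  obtain ⟨f₁, hf₁⟩ := EuclideanDomain.gcd_dvd_left (f.map c) (g.map c)
  obtain ⟨h₀, hh₀⟩ := EuclideanDomain.gcd_dvd_right (f.map c) (g.map c)
  set d := EuclideanDomain.gcd (f.map c) (g.map c) with hd
  obtain ⟨h, hh⟩ := exists_lift p h₀
  obtain ⟨f₂, hf₂⟩ := exists_lift p f₁
  have hψf : ψ (f.map c) = 0 := by rw [hψ]; exact Ideal.Quotient.eq_zero_iff_mem.2 hfm
  have hψg : ψ (g.map c) = 0 := by rw [hψ]; exact Ideal.Quotient.eq_zero_iff_mem.2 hgm
  refine ⟨h, ?_, ?_⟩
  · intro hhm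
    have hψh : ψ h₀ = 0 := by
      rw [← hh, hψ]; exact Ideal.Quotient.eq_zero_iff_mem.2 hhm
    have hψd : ψ d = 0 := by
      rw [hd, EuclideanDomain.gcd_eq_gcd_ab, map_add, map_mul, map_mul, hψf, hψg]
      ring
    have hcop : IsCoprime d h₀ := by
      have h1 : Squarefree (d * h₀) := by rw [← hh₀]; exact hg
      exact (squarefree_mul_iff.1 h1).1.isCoprime
    obtain ⟨u, v, huv⟩ := hcop
    have h2 := congrArg ψ huv
    rw [map_add, map_mul, map_mul, hψd, hψh, mul_zero, mul_zero, add_zero, map_one] at h2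
    exact zero_ne_one h2
  · have h1 : (h * f - f₂ * g).map c = 0 := by
      rw [Polynomial.map_sub, Polynomial.map_mul, Polynomial.map_mul, hh, hf₂]
      calc h₀ * f.map c - f₁ * g.map c = h₀ * (d * f₁) - f₁ * (d * h₀) := by rw [← hf₁, ← hh₀]
        _ = 0 := by ring
    obtain ⟨w, hw⟩ := map_zmod_eq_zero p _ h1
    refine ⟨aeval x w, aeval x f₂, ?_⟩
    have h2 := congrArg (aeval x) hw
    rw [map_sub, map_mul, map_mul, map_mul, aeval_C] at h2
    have h3 : (algebraMap ℤ B) (p : ℤ) = (p : B) := by simp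
    rw [h3] at h2
    linear_combination h2

end Pool.Agent.Y730.RD
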