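import Mathlib
import Pool.Agent.Y730.RD.ModP

/-!
# Local generators of the prime ideals of `ℤ[a^{1/n}]` above `p ∣ n`, `p ∤ a`
-/

set_option autoImplicit false

open Polynomial

namespace Pool.Agent.Y730.RD

lemma squarefree_X_pow_sub (p m : ℕ) [Fact p.Prime] (hm : ¬ p ∣ m) (a : ℤ) (ha : ¬ (p : ℤ) ∣ a) :
    Squarefree (((X : ℤ[X]) ^ m - C a).map (Int.castRingHom (ZMod p))) := by
  rw [Polynomial.map_sub, Polynomial.map_pow, map_X, map_C]
  apply Separable.squarefree
  apply separable_X_pow_sub_C' p m _ hm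
  intro h
  exact ha ((ZMod.intCast_zmod_eq_zero_iff_dvd a p).1 h)

lemma int_not_mem {B : Type*} [CommRing B] (p : ℕ) [Fact p.Prime] (m : Ideal B)
    [hm : m.IsPrime] (hp : (p : B) ∈ m) (c : ℤ) (hc : ¬ (p : ℤ) ∣ c) : (c : B) ∉ m := by
  intro h
  have hcop : IsCoprime (p : ℤ) c :=
    (Nat.prime_iff_prime_int.1 (Fact.out : p.Prime)).coprime_iff_not_dvd.2 hc
  obtain ⟨u, v, huv⟩ := hcop
  apply hm.ne_top
  rw [Ideal.eq_top_iff_one]
  have h1 : (1 : B) = u * p + v * c := by
    have := congrArg (fun z : ℤ => (z : B)) huv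
    push_cast at this
    exact this.symm
  rw [h1]
  exact m.add_mem (m.mul_mem_left _ hp) (m.mul_mem_left _ h)

/-- The non-Wieferich case. -/
lemma reg_nw {B : Type*} [CommRing B] [IsDomain B] [CharZero B] (x : B) (a : ℤ) (p k l : ℕ)
    [hpf : Fact p.Prime] (hl : ¬ p ∣ l) (ha : ¬ (p : ℤ) ∣ a)
    (hx : x ^ (p ^ k * l) = a) (c : ℤ) (hc : a ^ (p ^ k) - a = p * c) (hpc : ¬ (p : ℤ) ∣ c)
    (m : Ideal B) [hm : m.IsPrime] (hp : (p : B) ∈ m) :
    ∃ t ∈ m, ∀ f : ℤ[X], aeval x f ∈ m → ∃ s, s ∉ m ∧ ∃ y, s * aeval x f = t * y := by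
  have hp' : p.Prime := hpf.out
  have hpk : 0 < p ^ k := pow_pos hp'.pos k
  set τ : B := x ^ l - a with hτ
  obtain ⟨S, hS⟩ := exists_add_pow_prime_pow_eq hp' τ (a : B) k
  have h1 : (τ + a) ^ p ^ k = a := by
    rw [hτ, sub_add_cancel, ← pow_mul, mul_comm, hx]
  rw [h1] at hS
  have hc' : (a : B) ^ (p ^ k) - a = p * c := by
    have := congrArg (fun z : ℤ => (z : B)) hc
    push_cast at this
    exact this
  have h2 : τ ^ p ^ k = p * -(τ * a * S + c) := by
    linear_combination -hS - hc'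
  have hτm : τ ∈ m := by
    apply hm.mem_of_pow_mem (p ^ k)
    rw [h2]
    exact m.mul_mem_right _ hp
  have hE : -(τ * a * S + c) ∉ m := by
    intro h
    apply int_not_mem p m hp c hpc
    have h3 : (c : B) = -(-(τ * a * S + c)) - τ * (a * S) := by ring
    rw [h3]
    exact m.sub_mem (m.neg_mem h) (m.mul_mem_right _ hτm)
  have hg : aeval x ((X : ℤ[X]) ^ l - C a) = τ := by
    rw [map_sub, map_pow, aeval_X, aeval_C, hτ]
    simp
  refine ⟨τ, hτm, fun f hf => ?_⟩
  obtain ⟨h, hh, α, β, hαβ⟩ := reduced_locally x p m hp ((X : ℤ[X]) ^ l - C a) f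
    (squarefree_X_pow_sub p l hl a ha) (by rw [hg]; exact hτm) hf
  rw [hg] at hαβ
  refine ⟨-(τ * a * S + c) * aeval x h, fun hmem => ?_, τ ^ (p ^ k - 1) * α -
    (τ * a * S + c) * β, ?_⟩
  · rcases hm.mem_or_mem hmem with h3 | h3
    · exact hE h3
    · exact hh h3
  · rw [mul_assoc, hαβ]
    have h4 : τ * τ ^ (p ^ k - 1) = τ ^ p ^ k := by
      rw [← pow_succ', Nat.sub_add_cancel hpk]
    linear_combination (-α) * h4 - α * h2

/-- The Wieferich case (`p` odd, exactly dividing the exponent). -/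
lemma reg_w {B : Type*} [CommRing B] [IsDomain B] [CharZero B] (x z : B) (a : ℤ) (p l : ℕ)
    [hpf : Fact p.Prime] (hp2 : p ≠ 2) (hl : ¬ p ∣ l) (ha : ¬ (p : ℤ) ∣ a)
    (w : ℤ) (hw : a ^ p - a = p ^ 2 * w) (hx : x ^ (p * l) = a)
    (hz : p * z = (x ^ l - a) ^ (p - 1))
    (hgen : ∀ b : B, ∃ f₁ f₂ : ℤ[X], b = aeval x f₁ + z * aeval x f₂)
    (m : Ideal B) [hm : m.IsPrime] (hp : (p : B) ∈ m) :
    ∃ t ∈ m, ∀ b ∈ m, ∃ s, s ∉ m ∧ ∃ y, s * b = t * y := by
  have hp' : p.Prime := hpf.out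
  have hp3 : 3 ≤ p := by
    have := hp'.two_le
    omega
  have hp0 : (p : B) ≠ 0 := by exact_mod_cast hp'.ne_zero
  set τ : B := x ^ l - a with hτ
  set S : B := ∑ k ∈ Finset.Ioo 0 p, τ ^ (k - 1) * (a : B) ^ (p - k - 1) * ↑(p.choose k / p) with hSdef
  have hS : (τ + a) ^ p = τ ^ p + (a : B) ^ p + p * τ * a * S := add_pow_prime_eq hp' τ (a : B)
  have h1 : (τ + a) ^ p = a := by
    rw [hτ, sub_add_cancel, ← pow_mul, mul_comm, hx]
  rw [h1] at hS
  have hw' : (a : B) ^ p - a = p ^ 2 * w := by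
    have := congrArg (fun z : ℤ => (z : B)) hw
    push_cast at this
    exact this
  have h2 : τ ^ p = -(p * τ * a * S) - p ^ 2 * w := by
    linear_combination -hS - hw'
  have hpow1 : τ * τ ^ (p - 1) = τ ^ p := by
    rw [← pow_succ', Nat.sub_add_cancel (by omega)]
  have hpow2 : τ * τ ^ (p - 2) = τ ^ (p - 1) := by
    rw [← pow_succ']
    congr 1
    omega
  have hpow3 : τ * τ ^ (p - 3) = τ ^ (p - 2) := by
    rw [← pow_succ']
    congr 1
    omega
  -- the three relations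
  have R3 : τ * (z + a * S) = -(p * w) := by
    apply mul_left_cancel₀ hp0
    linear_combination τ * hz + hpow1 + h2
  have R2 : z * (z + a * S) = -(w * τ ^ (p - 2)) := by
    apply mul_left_cancel₀ hp0
    linear_combination (z + a * S) * hz + τ ^ (p - 2) * R3 - (z + a * S) * hpow2
  have hτm : τ ∈ m := by
    apply hm.mem_of_pow_mem (p - 1)
    rw [← hz]
    exact m.mul_mem_right _ hp
  have hSm : (a : B) * S ∉ m := by
    intro h
    have haS : ∃ r, S = (a : B) ^ (p - 2) + τ * r := by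
      have hmem : (1 : ℕ) ∈ Finset.Ioo 0 p := by
        rw [Finset.mem_Ioo]; omega
      refine ⟨∑ k ∈ (Finset.Ioo 0 p).erase 1,
        τ ^ (k - 2) * (a : B) ^ (p - k - 1) * ↑(p.choose k / p), ?_⟩
      rw [hSdef, ← Finset.add_sum_erase _ _ hmem, Finset.mul_sum]
      congr 1
      · rw [Nat.choose_one_right, Nat.div_self hp'.pos, Nat.sub_self, pow_zero, one_mul,
          Nat.cast_one, mul_one]
        congr 1
      · refine Finset.sum_congr rfl fun k hk => ?_
        rw [Finset.mem_erase, Finset.mem_Ioo] at hk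
        have : τ ^ (k - 1) = τ * τ ^ (k - 2) := by
          rw [← pow_succ']
          congr 1
          omega
        rw [this]
        ring
    obtain ⟨r, hr⟩ := haS
    have h3 : ((a ^ (p - 1) : ℤ) : B) ∈ m := by
      have h4 : ((a ^ (p - 1) : ℤ) : B) = a * S - τ * (a * r) := by
        rw [hr]
        have : (a : B) ^ (p - 1) = a * a ^ (p - 2) := by
          rw [← pow_succ']
          congr 1
          omega
        push_cast
        rw [this]
        ring
      rw [h4]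
      exact m.sub_mem h (m.mul_mem_right _ hτm)
    refine int_not_mem p m hp (a ^ (p - 1)) ?_ h3
    intro h4
    exact ha ((Nat.prime_iff_prime_int.1 hp').dvd_of_dvd_pow h4)
  have hg : aeval x ((X : ℤ[X]) ^ l - C a) = τ := by
    rw [map_sub, map_pow, aeval_X, aeval_C, hτ]
    simp
  have hor : z ∈ m ∨ z + a * S ∈ m := by
    apply hm.mem_or_mem
    rw [R2]
    apply m.neg_mem
    rw [← hpow3]
    exact m.mul_mem_left _ (m.mul_mem_right _ hτm)
  have hsq := squarefree_X_pow_sub p l hl a ha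
  rcases hor with hzm | hzm
  · -- `z ∈ m`, `z + a S ∉ m`: generator `p`
    have hE : z + a * S ∉ m := by
      intro h
      apply hSm
      have h3 : (a : B) * S = (z + a * S) - z := by ring
      rw [h3]
      exact m.sub_mem h hzm
    refine ⟨p, hp, fun b hb => ?_⟩
    obtain ⟨f₁, f₂, hf⟩ := hgen b
    have hf₁ : aeval x f₁ ∈ m := by
      have h3 : aeval x f₁ = b - z * aeval x f₂ := by rw [hf]; ring
      rw [h3]
      exact m.sub_mem hb (m.mul_mem_right _ hzm)
    obtain ⟨h, hh, α, β, hαβ⟩ := reduced_locally x p m hp ((X : ℤ[X]) ^ l - C a) f₁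
      hsq (by rw [hg]; exact hτm) hf₁
    rw [hg] at hαβ
    refine ⟨(z + a * S) ^ 2 * aeval x h, fun hmem => ?_,
      (z + a * S) ^ 2 * α - (z + a * S) * w * β + aeval x h * aeval x f₂ *
        (w ^ 2 * τ ^ (p - 3)), ?_⟩
    · rcases hm.mem_or_mem hmem with h3 | h3
      · exact hE (hm.mem_of_pow_mem 2 h3)
      · exact hh h3
    · rw [hf]
      linear_combination (z + a * S) ^ 2 * hαβ + (z + a * S) * β * R3 +
        aeval x h * aeval x f₂ * (z + a * S) * R2 + aeval x h * aeval x f₂ * w * (z + a * S) * hpow3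
        - aeval x h * aeval x f₂ * w * τ ^ (p - 3) * R3
  · -- `z + a S ∈ m`, `z ∉ m`: generator `τ`
    have hE : z ∉ m := by
      intro h
      apply hSm
      have h3 : (a : B) * S = (z + a * S) - z := by ring
      rw [h3]
      exact m.sub_mem hzm h
    refine ⟨τ, hτm, fun b hb => ?_⟩
    obtain ⟨f₁, f₂, hf⟩ := hgen b
    -- `b = (f₁ - a S f₂) + (z + a S) f₂`; work with `S` as a polynomial in `x`
    let Sp : ℤ[X] := ∑ k ∈ Finset.Ioo 0 p,
      ((X : ℤ[X]) ^ l - C a) ^ (k - 1) * C a ^ (p - k - 1) * ↑(p.choose k / p)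
    have hSp : aeval x Sp = S := by
      rw [hSdef]
      simp only [Sp, map_sum, map_mul, map_pow, hg, aeval_C, map_natCast]
      simp
    have hf₁ : aeval x (f₁ - C a * Sp * f₂) ∈ m := by
      have h3 : aeval x (f₁ - C a * Sp * f₂) = b - (z + a * S) * aeval x f₂ := by
        rw [hf, map_sub, map_mul, map_mul, hSp, aeval_C]
        simp only [algebraMap_int_eq, eq_intCast]
        ring
      rw [h3]
      exact m.sub_mem hb (m.mul_mem_right _ hzm)
    obtain ⟨h, hh, α, β, hαβ⟩ := reduced_locally x p m hp ((X : ℤ[X]) ^ l - C a)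
      (f₁ - C a * Sp * f₂) hsq (by rw [hg]; exact hτm) hf₁
    rw [hg, map_sub, map_mul, map_mul, hSp, aeval_C] at hαβ
    simp only [algebraMap_int_eq, eq_intCast] at hαβ
    refine ⟨z * aeval x h, fun hmem => ?_,
      τ ^ (p - 2) * α + z * β - aeval x h * aeval x f₂ * (w * τ ^ (p - 3)), ?_⟩
    · rcases hm.mem_or_mem hmem with h3 | h3
      · exact hE h3
      · exact hh h3
    · rw [hf]
      linear_combination z * hαβ + α * hz - α * hpow2 + aeval x h * aeval x f₂ * R2 +
        aeval x h * aeval x f₂ * w * hpow3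

end Pool.Agent.Y730.RD
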