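import Mathlib
import Pool.Agent.Y730.RD.Radical
import Pool.Agent.Y730.RD.Reg
import Pool.Agent.Y730.RD.RegPrime

/-!
# The order `ℤ[a^{1/n}]` and its `p`-maximality
-/

set_option autoImplicit false

open NumberField Module Polynomial

namespace Pool.Agent.Y730.RD

variable {K : Type*} [Field K] [NumberField K]

lemma mem_adjoin_iff {R : Type*} [CommRing R] (θ z : R) :
    z ∈ Algebra.adjoin ℤ {θ} ↔ ∃ f : ℤ[X], z = aeval θ f := by
  rw [Algebra.adjoin_singleton_eq_range_aeval]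
  constructor
  · rintro ⟨f, hf⟩
    exact ⟨f, hf.symm⟩
  · rintro ⟨f, hf⟩
    exact ⟨f, hf.symm⟩

lemma coe_mem_adjoin_iff (θ z : 𝓞 K) :
    (z : K) ∈ Algebra.adjoin ℤ {(θ : K)} ↔ z ∈ Algebra.adjoin ℤ {θ} := by
  rw [mem_adjoin_iff, mem_adjoin_iff]
  constructor
  · rintro ⟨f, hf⟩
    exact ⟨f, RingOfIntegers.coe_injective (hf.trans (aeval_algebraMap_apply K θ f))⟩
  · rintro ⟨f, hf⟩
    refine ⟨f, ?_⟩
    rw [hf]
    exact (aeval_algebraMap_apply K θ f).symm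

/-- the discriminant of the powers of `θ` times an integer lies in `ℤ[θ]` -/
lemma disc_mul_mem {a n : ℕ} (ha : Squarefree a) (ha2 : 2 ≤ a) (hn : 0 < n)
    (hK : finrank ℚ K = n) (θ : 𝓞 K) (hθ : θ ^ n = (a : 𝓞 K)) (z : 𝓞 K) :
    ((n ^ n * a ^ (n - 1) : ℕ) : ℤ) • z ∈ Algebra.adjoin ℤ {θ} := by
  have hθK : (θ : K) ^ n = (a : K) := by
    have := congrArg (algebraMap (𝓞 K) K) hθ
    simpa using this
  obtain ⟨pb, hgen, hdim, u, hu, hdisc⟩ := exists_pb ha ha2 hn hK (θ : K) hθK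
  have hint : IsIntegral ℤ pb.gen := by rw [hgen]; exact RingOfIntegers.isIntegral_coe θ
  have h1 := Algebra.discr_mul_isIntegral_mem_adjoin (K := ℚ) hint (RingOfIntegers.isIntegral_coe z)
  rw [hdisc, hgen] at h1
  have h2 : u = 1 ∨ u = -1 := by
    rcases abs_choice u with h | h
    · left; rw [← h]; exact hu
    · right
      rw [h] at hu
      linarith
  have h3 : (((n ^ n * a ^ (n - 1) : ℕ) : ℤ) • z : 𝓞 K) = (((n ^ n * a ^ (n - 1) : ℕ) : 𝓞 K)) * z := by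
    rw [zsmul_eq_mul]
    push_cast
    rfl
  rw [← coe_mem_adjoin_iff, h3]
  have h4 : (((((n ^ n * a ^ (n - 1) : ℕ) : 𝓞 K)) * z : 𝓞 K) : K) =
      ((n : ℚ) ^ n * (a : ℚ) ^ (n - 1)) • (z : K) := by
    rw [Algebra.smul_def]
    push_cast
    simp
  rw [h4]
  rcases h2 with h2 | h2
  · rw [h2, one_mul] at h1
    exact h1
  · rw [h2, neg_one_mul, neg_smul] at h1
    exact (neg_mem_iff (H := Algebra.adjoin ℤ {(θ : K)})).1 h1

/-- `p`-maximality for `p ∣ a` -/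
lemma pmax_eis {a n p : ℕ} (ha : Squarefree a) (ha2 : 2 ≤ a) (hn : 0 < n)
    (hK : finrank ℚ K = n) (θ : 𝓞 K) (hθ : θ ^ n = (a : 𝓞 K)) (hp : p.Prime) (hpa : p ∣ a)
    (z : 𝓞 K) (hz : (p : 𝓞 K) * z ∈ Algebra.adjoin ℤ {θ}) : z ∈ Algebra.adjoin ℤ {θ} := by
  have hθK : (θ : K) ^ n = (a : K) := by
    have := congrArg (algebraMap (𝓞 K) K) hθ
    simpa using this
  obtain ⟨pb, hgen, hdim, u, hu, hdisc⟩ := exists_pb ha ha2 hn hK (θ : K) hθK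
  have hint : IsIntegral ℤ pb.gen := by rw [hgen]; exact RingOfIntegers.isIntegral_coe θ
  have hpa2 : ¬ p ^ 2 ∣ a := fun h => by
    have := ha p (by rw [← pow_two]; exact h)
    exact hp.not_isUnit this
  rw [← coe_mem_adjoin_iff, ← hgen]
  refine mem_adjoin_of_smul_prime_smul_of_minpoly_isEisensteinAt (R := ℤ) (K := ℚ) (p := (p : ℤ))
    (Nat.prime_iff_prime_int.1 hp) hint (RingOfIntegers.isIntegral_coe z) ?_ ?_
  · rw [hgen]
    have h1 : (p : ℤ) • (z : K) = (((p : 𝓞 K) * z : 𝓞 K) : K) := by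
      rw [zsmul_eq_mul]
      push_cast
      rfl
    rw [h1, coe_mem_adjoin_iff]
    exact hz
  · rw [hgen, minpoly_int ha ha2 hn (θ : K) hθK]
    exact eis_at hn hp hpa hpa2

/-- `p`-maximality for `p ∣ n`, `p ∤ a`, in the non-Wieferich case -/
lemma pmax_nw {a n p k l : ℕ} (ha : Squarefree a) (ha2 : 2 ≤ a) (hn : 0 < n)
    (hK : finrank ℚ K = n) (θ : 𝓞 K) (hθ : θ ^ n = (a : 𝓞 K)) (hp : p.Prime) (hpa : ¬ p ∣ a)
    (hnkl : n = p ^ k * l) (hl : ¬ p ∣ l) (c : ℤ) (hc : (a : ℤ) ^ (p ^ k) - a = p * c)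
    (hpc : ¬ (p : ℤ) ∣ c)
    (z : 𝓞 K) (hz : (p : 𝓞 K) * z ∈ Algebra.adjoin ℤ {θ}) : z ∈ Algebra.adjoin ℤ {θ} := by
  have : Fact p.Prime := ⟨hp⟩
  refine maximal_of_regular (Algebra.adjoin ℤ {θ}) (n ^ n * a ^ (n - 1) : ℕ) (by positivity)
    (disc_mul_mem ha ha2 hn hK θ hθ) p ?_ z hz
  intro m hm hpm
  have := hm.isPrime
  let x : Algebra.adjoin ℤ {θ} := ⟨θ, Algebra.subset_adjoin rfl⟩
  have hx : x ^ (p ^ k * l) = ((a : ℤ) : Algebra.adjoin ℤ {θ}) := by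
    apply Subtype.ext
    push_cast
    rw [← hnkl]
    exact hθ
  obtain ⟨t, ht, h⟩ := reg_nw x (a : ℤ) p k l hl (by exact_mod_cast hpa) hx c hc hpc m hpm
  refine ⟨t, ht, fun y hy => ?_⟩
  obtain ⟨f, hf⟩ := (mem_adjoin_iff θ y.1).1 y.2
  have hyf : y = aeval x f := by
    apply Subtype.ext
    rw [hf, ← Subalgebra.coe_val, ← aeval_algHom_apply]
    rfl
  rw [hyf] at hy ⊢
  exact h f hy

/-- the order generated by `θ` and an element `z` with `z² = u₁(θ) + z u₂(θ)` -/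
def quadOrder {R : Type*} [CommRing R] (θ z : R) (u₁ u₂ : ℤ[X])
    (h : z * z = aeval θ u₁ + z * aeval θ u₂) : Subalgebra ℤ R where
  carrier := {b | ∃ f₁ f₂ : ℤ[X], b = aeval θ f₁ + z * aeval θ f₂}
  mul_mem' := by
    rintro _ _ ⟨f₁, f₂, rfl⟩ ⟨g₁, g₂, rfl⟩
    refine ⟨f₁ * g₁ + u₁ * f₂ * g₂, f₁ * g₂ + f₂ * g₁ + u₂ * f₂ * g₂, ?_⟩
    simp only [map_add, map_mul]
    linear_combination (aeval θ f₂) * (aeval θ g₂) * h
  add_mem' := by
    rintro _ _ ⟨f₁, f₂, rfl⟩ ⟨g₁, g₂, rfl⟩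
    refine ⟨f₁ + g₁, f₂ + g₂, ?_⟩
    simp only [map_add]
    ring
  algebraMap_mem' := by
    intro r
    refine ⟨C r, 0, ?_⟩
    rw [aeval_C, map_zero, mul_zero, add_zero]

lemma mem_quadOrder {R : Type*} [CommRing R] (θ z : R) (u₁ u₂ : ℤ[X])
    (h : z * z = aeval θ u₁ + z * aeval θ u₂) (b : R) :
    b ∈ quadOrder θ z u₁ u₂ h ↔ ∃ f₁ f₂ : ℤ[X], b = aeval θ f₁ + z * aeval θ f₂ := Iff.rfl

/-- the extra integer in the Wieferich case -/
lemma exists_extra {a p l : ℕ} (θ : 𝓞 K) (hp : p.Prime)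
    (hp2 : p ≠ 2) (hθ : θ ^ (p * l) = (a : 𝓞 K)) (w : ℤ) (hw : (a : ℤ) ^ p - a = p ^ 2 * w) :
    ∃ z : 𝓞 K, p * z = (θ ^ l - a) ^ (p - 1) ∧
      ∃ u₁ u₂ : ℤ[X], z * z = aeval θ u₁ + z * aeval θ u₂ := by
  have hp3 : 3 ≤ p := by
    have := hp.two_le
    omega
  have hp0 : (p : 𝓞 K) ≠ 0 := by exact_mod_cast hp.ne_zero
  have hp0K : (p : K) ≠ 0 := by exact_mod_cast hp.ne_zero
  let g : ℤ[X] := X ^ l - C (a : ℤ)
  set τ : 𝓞 K := θ ^ l - a with hτ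
  have hg : aeval θ g = τ := by
    simp only [g]
    rw [map_sub, map_pow, aeval_X, aeval_C, hτ]
    simp
  let Sp : ℤ[X] := ∑ k ∈ Finset.Ioo 0 p, g ^ (k - 1) * C (a : ℤ) ^ (p - k - 1) *
    ((p.choose k / p : ℕ) : ℤ[X])
  set S : 𝓞 K := ∑ k ∈ Finset.Ioo 0 p, τ ^ (k - 1) * (a : 𝓞 K) ^ (p - k - 1) *
    ↑(p.choose k / p) with hSdef
  have hSp : aeval θ Sp = S := by
    rw [hSdef]
    simp [Sp, map_sum, map_mul, map_pow, hg]
  have hS : (τ + a) ^ p = τ ^ p + (a : 𝓞 K) ^ p + p * τ * a * S := add_pow_prime_eq hp τ (a : 𝓞 K)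
  have h1 : (τ + a) ^ p = a := by
    rw [hτ, sub_add_cancel, ← pow_mul, mul_comm, hθ]
  rw [h1] at hS
  have hw' : (a : 𝓞 K) ^ p - a = p ^ 2 * w := by
    have := congrArg (fun z : ℤ => (z : 𝓞 K)) hw
    push_cast at this
    exact this
  have h2 : τ ^ p = -(p * τ * a * S) - p ^ 2 * w := by
    linear_combination -hS - hw'
  have hpow1 : τ * τ ^ (p - 1) = τ ^ p := by
    rw [← pow_succ', Nat.sub_add_cancel (by omega)]
  have hpow2 : τ * τ ^ (p - 2) = τ ^ (p - 1) := by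
    rw [← pow_succ']
    congr 1
    omega
  have h3 : τ ^ (p - 1) * τ ^ (p - 1) = p * (-(a * S * τ ^ (p - 1)) - p * (w * τ ^ (p - 2))) := by
    linear_combination (-τ ^ (p - 1)) * hpow2 + τ ^ (p - 2) * hpow1 + τ ^ (p - 2) * h2 -
      p * a * S * hpow2
  have hint : IsIntegral (𝓞 K) (((τ ^ (p - 1) : 𝓞 K) : K) / p) := by
    refine ⟨X ^ 2 + C (a * S) * X + C (w * τ ^ (p - 2)), ?_, ?_⟩
    · monicity!
    · rw [← aeval_def]
      simp only [map_add, map_mul, map_pow, aeval_X, aeval_C]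
      have h4 := congrArg (algebraMap (𝓞 K) K) h3
      simp only [map_mul, map_sub, map_neg, map_natCast, map_intCast] at h4
      simp only [map_intCast, map_natCast]
      field_simp
      simp only [map_pow] at h4 ⊢
      linear_combination h4
  obtain ⟨z, hz⟩ := (IsIntegrallyClosed.isIntegral_iff (R := 𝓞 K) (K := K)).1 hint
  have hz1 : p * z = τ ^ (p - 1) := by
    apply RingOfIntegers.coe_injective
    rw [map_mul, hz, map_natCast]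
    field_simp
  refine ⟨z, hz1, -(C (w : ℤ) * g ^ (p - 2)), -(C (a : ℤ) * Sp), ?_⟩
  have e1 : aeval θ (C (w : ℤ) : ℤ[X]) = (w : 𝓞 K) := by rw [aeval_C]; simp
  have e2 : aeval θ (C (a : ℤ) : ℤ[X]) = (a : 𝓞 K) := by rw [aeval_C]; simp
  rw [map_neg, map_neg, map_mul, map_mul, map_pow, hg, hSp, e1, e2]
  apply mul_left_cancel₀ hp0
  apply mul_left_cancel₀ hp0
  linear_combination (p * z + τ ^ (p - 1)) * hz1 + h3 + p * a * S * hz1

/-- `p`-maximality in the Wieferich case -/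
lemma pmax_w {a n p l : ℕ} (ha : Squarefree a) (ha2 : 2 ≤ a) (hn : 0 < n)
    (hK : finrank ℚ K = n) (θ : 𝓞 K) (hθ : θ ^ n = (a : 𝓞 K)) (hp : p.Prime) (hp2 : p ≠ 2)
    (hpa : ¬ p ∣ a) (hnl : n = p * l) (hl : ¬ p ∣ l) (w : ℤ) (hw : (a : ℤ) ^ p - a = p ^ 2 * w)
    (y : 𝓞 K) (hy : p * y = (θ ^ l - a) ^ (p - 1)) (u₁ u₂ : ℤ[X])
    (hu : y * y = aeval θ u₁ + y * aeval θ u₂)
    (z : 𝓞 K) (hz : (p : 𝓞 K) * z ∈ quadOrder θ y u₁ u₂ hu) : z ∈ quadOrder θ y u₁ u₂ hu := by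
  have : Fact p.Prime := ⟨hp⟩
  have hsub : ∀ f : ℤ[X], aeval θ f ∈ quadOrder θ y u₁ u₂ hu := fun f =>
    ⟨f, 0, by rw [map_zero, mul_zero, add_zero]⟩
  refine maximal_of_regular (quadOrder θ y u₁ u₂ hu) (n ^ n * a ^ (n - 1) : ℕ) (by positivity)
    (fun z => ?_) p ?_ z hz
  · obtain ⟨f, hf⟩ := (mem_adjoin_iff _ _).1 (disc_mul_mem ha ha2 hn hK θ hθ z)
    rw [hf]
    exact hsub f
  intro m hm hpm
  have := hm.isPrime
  let x : quadOrder θ y u₁ u₂ hu := ⟨θ, by simpa using hsub X⟩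
  let y' : quadOrder θ y u₁ u₂ hu := ⟨y, ⟨0, 1, by simp⟩⟩
  have hx : x ^ (p * l) = ((a : ℤ) : quadOrder θ y u₁ u₂ hu) := by
    apply Subtype.ext
    push_cast
    rw [← hnl]
    exact hθ
  have haev : ∀ f : ℤ[X], ((aeval x f : quadOrder θ y u₁ u₂ hu) : 𝓞 K) = aeval θ f := by
    intro f
    rw [← Subalgebra.coe_val, ← aeval_algHom_apply]
    rfl
  obtain ⟨t, ht, h⟩ := reg_w x y' (a : ℤ) p l hp2 hl (by exact_mod_cast hpa) w hw hx
    (by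
      apply Subtype.ext
      push_cast
      exact hy)
    (by
      rintro ⟨b, f₁, f₂, hb⟩
      refine ⟨f₁, f₂, Subtype.ext ?_⟩
      push_cast
      exact hb) m hpm
  exact ⟨t, ht, h⟩

end Pool.Agent.Y730.RD
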