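import Mathlib
import Pool.Agent.Y730.RD.Order

/-!
# The index of `ℤ[a^{1/n}]` in the ring of integers
-/

set_option autoImplicit false

open NumberField Module Polynomial

namespace Pool.Agent.Y730.RD

lemma card_le_of_gens {G : Type*} [AddCommGroup G] {J : Type*} [Fintype J] [DecidableEq J]
    (N : J → ℕ) (hN : ∀ j, 0 < N j) (g : J → G) (hg : ∀ j, N j • g j = 0)
    (hgen : AddSubgroup.closure (Set.range g) = ⊤) : Nat.card G ≤ ∏ j, N j := by
  have : ∀ j, NeZero (N j) := fun j => ⟨(hN j).ne'⟩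
  let f : ∀ j, ZMod (N j) →+ G := fun j =>
    ZMod.lift (N j) ⟨zmultiplesHom G (g j), by simpa using hg j⟩
  let F : (∀ j, ZMod (N j)) →+ G := ∑ j, (f j).comp (Pi.evalAddMonoidHom (fun j => ZMod (N j)) j)
  have hF : ∀ j, F (Pi.single j 1) = g j := by
    intro j
    simp only [F, AddMonoidHom.finsetSum_apply, AddMonoidHom.comp_apply,
      Pi.evalAddMonoidHom_apply]
    rw [Finset.sum_eq_single j]
    · rw [Pi.single_eq_same]
      have h1 : (1 : ZMod (N j)) = ((1 : ℤ) : ZMod (N j)) := by simp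
      simp only [f]
      rw [h1, ZMod.lift_coe]
      simp
    · intro i _ hij
      rw [Pi.single_eq_of_ne hij, map_zero]
    · intro h
      exact absurd (Finset.mem_univ j) h
  have hsurj : Function.Surjective F := by
    rw [← AddMonoidHom.range_eq_top, eq_top_iff, ← hgen, AddSubgroup.closure_le]
    rintro _ ⟨j, rfl⟩
    exact ⟨Pi.single j 1, hF j⟩
  calc Nat.card G ≤ Nat.card (∀ j, ZMod (N j)) := Nat.card_le_card_of_surjective F hsurj
    _ = ∏ j, N j := by
      rw [Nat.card_pi]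
      simp

/-- `p² ∣ a^(p-1) - 1` -/
def Wieferich (a p : ℕ) : Prop := ((p : ℤ) ^ 2 ∣ (a : ℤ) ^ (p - 1) - 1)

lemma wief_w {a p : ℕ} (hp : p.Prime) (h : Wieferich a p) :
    ∃ w : ℤ, (a : ℤ) ^ p - a = p ^ 2 * w := by
  obtain ⟨w, hw⟩ := h
  refine ⟨a * w, ?_⟩
  have : (a : ℤ) ^ p = a * a ^ (p - 1) := by
    rw [← pow_succ', Nat.sub_add_cancel hp.pos]
  rw [this]
  linear_combination (a : ℤ) * hw

lemma wief_nw {a p : ℕ} (hp : p.Prime) (hpa : ¬ p ∣ a) (h : ¬ Wieferich a p) (k : ℕ)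
    (hk : 1 ≤ k) : ∃ c : ℤ, (a : ℤ) ^ (p ^ k) - a = p * c ∧ ¬ (p : ℤ) ∣ c := by
  have : Fact p.Prime := ⟨hp⟩
  have h1 : (p : ℤ) ∣ (a : ℤ) ^ (p ^ k) - a := by
    rw [← ZMod.intCast_zmod_eq_zero_iff_dvd]
    push_cast
    rw [ZMod.pow_card_pow, sub_self]
  obtain ⟨c, hc⟩ := h1
  refine ⟨c, hc, fun ⟨d, hd⟩ => h ?_⟩
  have hcop : Nat.Coprime a (p ^ 2) :=
    Nat.Coprime.pow_right 2 ((Nat.coprime_comm.1 ((Nat.Prime.coprime_iff_not_dvd hp).2 hpa)))
  have hu : IsUnit ((a : ℕ) : ZMod (p ^ 2)) := (ZMod.isUnit_iff_coprime a (p ^ 2)).2 hcop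
  obtain ⟨u, hu⟩ := hu
  have h2 : (a : ZMod (p ^ 2)) ^ (p ^ k) = a := by
    have h3 : (((a : ℤ) ^ (p ^ k) - a : ℤ) : ZMod (p ^ 2)) = 0 := by
      rw [ZMod.intCast_zmod_eq_zero_iff_dvd, hc, hd]
      refine ⟨d, ?_⟩
      push_cast
      ring
    push_cast at h3
    exact sub_eq_zero.1 h3
  have h3 : u ^ (p ^ k - 1) = 1 := by
    have hpk : 0 < p ^ k := pow_pos hp.pos k
    have h4 : u ^ (p ^ k - 1) * u = 1 * u := by
      rw [← pow_succ, Nat.sub_add_cancel hpk, one_mul]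
      apply Units.ext
      push_cast
      rw [hu]
      exact h2
    exact mul_right_cancel h4
  have h4 : u ^ (p * (p - 1)) = 1 := by
    have := ZMod.pow_totient u
    rwa [Nat.totient_prime_pow hp (by norm_num), show 2 - 1 = 1 by rfl, pow_one] at this
  have h5 : orderOf u ∣ p ^ k - 1 := orderOf_dvd_of_pow_eq_one h3
  have h6 : orderOf u ∣ p * (p - 1) := orderOf_dvd_of_pow_eq_one h4
  have h7 : Nat.Coprime (orderOf u) p := by
    rw [Nat.coprime_comm, hp.coprime_iff_not_dvd]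
    intro h8
    have h9 : p ∣ p ^ k - 1 := h8.trans h5
    have h10 : p ∣ p ^ k := dvd_pow_self p (by omega)
    have h11 : p ∣ 1 := by
      have hpk : 1 ≤ p ^ k := Nat.one_le_pow _ _ hp.pos
      have := (Nat.dvd_sub h10 h9)
      rwa [show p ^ k - (p ^ k - 1) = 1 by omega] at this
    exact hp.one_lt.ne' (Nat.dvd_one.1 h11)
  have h8 : orderOf u ∣ p - 1 := h7.dvd_of_dvd_mul_left h6
  have h9 : u ^ (p - 1) = 1 := orderOf_dvd_iff_pow_eq_one.1 h8
  have h10 : (((a : ℤ) ^ (p - 1) - 1 : ℤ) : ZMod (p ^ 2)) = 0 := by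
    have := congrArg (fun v : (ZMod (p ^ 2))ˣ => (v : ZMod (p ^ 2))) h9
    simp only [Units.val_pow_eq_pow_val, hu, Units.val_one] at this
    push_cast
    rw [this, sub_self]
  rw [ZMod.intCast_zmod_eq_zero_iff_dvd] at h10
  unfold Wieferich
  exact_mod_cast h10

variable {K : Type*} [Field K] [NumberField K]

lemma extra_tau {R : Type*} [CommRing R] [IsDomain R] [CharZero R] {a p l : ℕ} (θ y : R)
    (hp : p.Prime) (hθ : θ ^ (p * l) = (a : R)) (w : ℤ) (hw : (a : ℤ) ^ p - a = p ^ 2 * w)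
    (hy : p * y = (θ ^ l - a) ^ (p - 1)) :
    ∃ u₃ : ℤ[X], y * (θ ^ l - a) = aeval θ u₃ := by
  have hp0 : (p : R) ≠ 0 := by exact_mod_cast hp.ne_zero
  let g : ℤ[X] := X ^ l - C (a : ℤ)
  have hg : aeval θ g = θ ^ l - a := by
    simp only [g]
    rw [map_sub, map_pow, aeval_X, aeval_C]
    simp
  obtain ⟨S, hS⟩ := exists_add_pow_prime_eq hp g (C (a : ℤ))
  have hS' := congrArg (aeval θ) hS
  have e2 : aeval θ (C (a : ℤ) : ℤ[X]) = (a : R) := by rw [aeval_C]; simp
  simp only [map_add, map_mul, map_pow, map_natCast, hg, e2] at hS'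
  rw [sub_add_cancel, ← pow_mul, mul_comm l p, hθ] at hS'
  have hw' : (a : R) ^ p - a = p ^ 2 * w := by
    have := congrArg (fun z : ℤ => (z : R)) hw
    push_cast at this
    exact this
  have hpow1 : (θ ^ l - a) * (θ ^ l - a) ^ (p - 1) = (θ ^ l - a) ^ p := by
    rw [← pow_succ', Nat.sub_add_cancel hp.pos]
  refine ⟨-(C (p : ℤ) * C w) - g * C (a : ℤ) * S, ?_⟩
  have e3 : aeval θ (C (w : ℤ) : ℤ[X]) = (w : R) := by rw [aeval_C]; simp
  have e4 : aeval θ (C (p : ℤ) : ℤ[X]) = (p : R) := by rw [aeval_C]; simp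
  simp only [map_sub, map_neg, map_mul, hg, e2, e3, e4]
  apply mul_left_cancel₀ hp0
  linear_combination (θ ^ l - a) * hy + hpow1 - hS' - hw'

/-- the index of `ℤ[θ]` is at most the product of the `p^(n/p)`, `p ∈ W` -/
theorem index_bound {a n : ℕ} (ha : Squarefree a) (ha2 : 2 ≤ a) (hn : 0 < n)
    (hK : finrank ℚ K = n) (θ : 𝓞 K) (hθ : θ ^ n = (a : 𝓞 K)) (W : Finset ℕ)
    (hW : ∀ p ∈ W, p.Prime ∧ p ≠ 2 ∧ p ∣ n ∧ ¬ p ^ 2 ∣ n ∧ ¬ p ∣ a ∧ Wieferich a p)
    (hW' : ∀ p, p.Prime → p ∣ n → ¬ p ∣ a → p ∉ W → ¬ Wieferich a p) :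
    Nat.card (𝓞 K ⧸ Subalgebra.toSubmodule (Algebra.adjoin ℤ {θ})) ≤ ∏ p ∈ W, p ^ (n / p) := by
  classical
  set A := Algebra.adjoin ℤ {θ} with hA
  have hex : ∀ p : W, ∃ y : 𝓞 K, p * y = (θ ^ (n / p) - a) ^ ((p : ℕ) - 1) ∧
      (∃ u₁ u₂ : ℤ[X], y * y = aeval θ u₁ + y * aeval θ u₂) ∧
      ∃ u₃ : ℤ[X], y * (θ ^ (n / p) - a) = aeval θ u₃ := by
    rintro ⟨p, hpW⟩
    obtain ⟨hp, hp2, hpn, hpn2, hpa, hwief⟩ := hW p hpW
    obtain ⟨w, hw⟩ := wief_w hp hwief
    have hθ' : θ ^ (p * (n / p)) = (a : 𝓞 K) := by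
      rw [Nat.mul_div_cancel' hpn]
      exact hθ
    obtain ⟨y, hy, hu⟩ := exists_extra θ hp hp2 hθ' w hw
    exact ⟨y, hy, hu, extra_tau θ y hp hθ' w hw hy⟩
  choose y hy hyu hyt using hex
  choose u₁ u₂ hu using hyu
  choose u₃ hu₃ using hyt
  let J := Σ p : W, Fin (n / p)
  let v : J → 𝓞 K := fun j => y j.1 * θ ^ (j.2 : ℕ)
  let C' : Submodule ℤ (𝓞 K) := Subalgebra.toSubmodule A ⊔ Submodule.span ℤ (Set.range v)
  have hAC : ∀ f : ℤ[X], aeval θ f ∈ C' := fun f =>
    Submodule.mem_sup_left ((mem_adjoin_iff θ _).2 ⟨f, rfl⟩)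
  -- Step A
  have hquad : ∀ p : W, ∀ z ∈ quadOrder θ (y p) (u₁ p) (u₂ p) (hu p), z ∈ C' := by
    rintro p z ⟨f₁, f₂, rfl⟩
    refine C'.add_mem (hAC f₁) ?_
    obtain ⟨hp, hp2, hpn, hpn2, hpa, hwief⟩ := hW p p.2
    have hl : 0 < n / p := Nat.div_pos (Nat.le_of_dvd hn hpn) hp.pos
    let g : ℤ[X] := X ^ (n / p) - C (a : ℤ)
    have hgm : g.Monic := monic_X_pow_sub_C _ hl.ne'
    have hgd : g.natDegree = n / p := natDegree_X_pow_sub_C
    have hg : aeval θ g = θ ^ (n / p) - a := by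
      simp only [g]
      rw [map_sub, map_pow, aeval_X, aeval_C]
      simp
    have hdiv := modByMonic_add_div f₂ g
    have h1 : y p * aeval θ f₂ = y p * aeval θ (f₂ %ₘ g) + aeval θ (u₃ p * (f₂ /ₘ g)) := by
      conv_lhs => rw [← hdiv]
      rw [map_add, map_mul, hg, map_mul, ← hu₃ p]
      ring
    rw [h1]
    refine C'.add_mem ?_ (hAC _)
    have hdeg : (f₂ %ₘ g).natDegree < n / p := by
      rw [← hgd]
      exact natDegree_modByMonic_lt _ hgm (by
        intro h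
        rw [h, natDegree_one] at hgd
        omega)
    rw [aeval_eq_sum_range' hdeg, Finset.mul_sum]
    refine Submodule.sum_mem _ fun i hi => ?_
    rw [mul_smul_comm]
    refine C'.smul_mem _ (Submodule.mem_sup_right (Submodule.subset_span ?_))
    exact ⟨⟨p, ⟨i, Finset.mem_range.1 hi⟩⟩, rfl⟩
  -- Step B
  have hstep : ∀ p : ℕ, p.Prime → p ∣ n * a → ∀ z : 𝓞 K, (p : 𝓞 K) * z ∈ C' → z ∈ C' := by
    intro p hp hpna z hz
    set M := ∏ q ∈ W.erase p, q with hM
    have hcop : Nat.Coprime M p := by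
      rw [hM]
      apply Nat.Coprime.prod_left
      intro q hq
      rw [Finset.mem_erase] at hq
      exact (Nat.coprime_primes (hW q hq.2).1 hp).2 hq.1
    -- multiples by `M` lie in the order `B_p`
    have hMy : (M : 𝓞 K) * z ∈ C' := by
      have hMC : ∀ (B : Subalgebra ℤ (𝓞 K)), (∀ f : ℤ[X], aeval θ f ∈ B) →
          (∀ h : p ∈ W, y ⟨p, h⟩ ∈ B) → ∀ c ∈ C', (M : 𝓞 K) * c ∈ B := by
        intro B hB1 hB2 c hc
        rw [Submodule.mem_sup] at hc
        obtain ⟨c₁, hc₁, c₂, hc₂, rfl⟩ := hc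
        rw [mul_add]
        refine B.add_mem (B.mul_mem (B.natCast_mem M) ?_) ?_
        · obtain ⟨f, rfl⟩ := (mem_adjoin_iff θ c₁).1 hc₁
          exact hB1 f
        · induction hc₂ using Submodule.span_induction with
          | mem x hx =>
            obtain ⟨⟨q, i⟩, rfl⟩ := hx
            have hθi : θ ^ (i : ℕ) ∈ B := by
              have := hB1 (X ^ (i : ℕ))
              rwa [map_pow, aeval_X] at this
            by_cases hqp : (q : ℕ) = p
            · have hpW : p ∈ W := hqp ▸ q.2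
              have hq : q = ⟨p, hpW⟩ := Subtype.ext hqp
              have hyq : y q ∈ B := by
                rw [hq]
                exact hB2 hpW
              exact B.mul_mem (B.natCast_mem M) (B.mul_mem hyq hθi)
            · have hqM : (q : ℕ) ∣ M :=
                Finset.dvd_prod_of_mem _ (Finset.mem_erase.2 ⟨hqp, q.2⟩)
              obtain ⟨r, hr⟩ := hqM
              have h1 : (M : 𝓞 K) * v ⟨q, i⟩ = r * (θ ^ (n / q) - a) ^ ((q : ℕ) - 1) * θ ^ (i : ℕ) := by
                rw [← hy q, hr]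
                simp only [v]
                push_cast
                ring
              rw [h1]
              refine B.mul_mem (B.mul_mem (B.natCast_mem r) (pow_mem (B.sub_mem ?_ ?_) _)) hθi
              · have := hB1 (X ^ (n / q))
                rwa [map_pow, aeval_X] at this
              · exact B.natCast_mem a
          | zero => rw [mul_zero]; exact B.zero_mem
          | add x y _ _ hx hy => rw [mul_add]; exact B.add_mem hx hy
          | smul r x _ hx =>
            rw [mul_smul_comm]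
            exact B.smul_mem hx r
      by_cases hpW : p ∈ W
      · obtain ⟨_, hp2, hpn, hpn2, hpa, hwief⟩ := hW p hpW
        obtain ⟨w, hw⟩ := wief_w hp hwief
        have hsub : ∀ f : ℤ[X], aeval θ f ∈ quadOrder θ (y ⟨p, hpW⟩) (u₁ ⟨p, hpW⟩) (u₂ ⟨p, hpW⟩)
            (hu ⟨p, hpW⟩) := fun f => ⟨f, 0, by rw [map_zero, mul_zero, add_zero]⟩
        have h1 := hMC (quadOrder θ (y ⟨p, hpW⟩) (u₁ ⟨p, hpW⟩) (u₂ ⟨p, hpW⟩) (hu ⟨p, hpW⟩)) hsub
          (fun _ => ⟨0, 1, by simp⟩) _ hz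
        have hnl : n = p * (n / p) := (Nat.mul_div_cancel' hpn).symm
        refine hquad ⟨p, hpW⟩ _ ?_
        refine pmax_w ha ha2 hn hK θ hθ hp hp2 hpa hnl ?_ w hw (y ⟨p, hpW⟩) (hy ⟨p, hpW⟩)
          (u₁ ⟨p, hpW⟩) (u₂ ⟨p, hpW⟩) (hu ⟨p, hpW⟩) _ ?_
        · intro h
          apply hpn2
          rw [hnl, pow_two]
          exact Nat.mul_dvd_mul_left p h
        · rw [mul_left_comm]
          exact h1
      · have h1 := hMC A (fun f => (mem_adjoin_iff θ _).2 ⟨f, rfl⟩)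
          (fun h => absurd h hpW) _ hz
        have h2 : (p : 𝓞 K) * (M * z) ∈ A := by
          rw [mul_left_comm]
          exact h1
        have h3 : (M : 𝓞 K) * z ∈ A := by
          by_cases hpa : p ∣ a
          · exact pmax_eis ha ha2 hn hK θ hθ hp hpa _ h2
          · have hpn : p ∣ n := ((hp.dvd_mul).1 hpna).resolve_right hpa
            obtain ⟨k, l, hl, hnkl⟩ := Nat.exists_eq_pow_mul_and_not_dvd hn.ne' p hp.ne_one
            have hk : 1 ≤ k := by
              by_contra hk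
              have : k = 0 := by omega
              rw [this, pow_zero, one_mul] at hnkl
              exact hl (hnkl ▸ hpn)
            obtain ⟨c, hc, hpc⟩ := wief_nw hp hpa (hW' p hp hpn hpa hpW) k hk
            exact pmax_nw ha ha2 hn hK θ hθ hp hpa hnkl hl c hc hpc _ h2
        exact Submodule.mem_sup_left h3
    have hcop' : IsCoprime (M : ℤ) (p : ℤ) := Nat.isCoprime_iff_coprime.2 hcop
    obtain ⟨u, w, huw⟩ := hcop'
    have h1 : z = u • ((M : 𝓞 K) * z) + w • ((p : 𝓞 K) * z) := by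
      have h2 := congrArg (fun t : ℤ => (t : 𝓞 K)) huw
      push_cast at h2
      rw [zsmul_eq_mul, zsmul_eq_mul]
      linear_combination (-z) * h2
    rw [h1]
    exact C'.add_mem (C'.smul_mem _ hMy) (C'.smul_mem _ hz)
  -- Step C
  have hall : ∀ D : ℕ, D ≠ 0 → (∀ p : ℕ, p.Prime → p ∣ D → p ∣ n * a) →
      ∀ z : 𝓞 K, (D : 𝓞 K) * z ∈ C' → z ∈ C' := by
    intro D
    induction D using induction_on_primes with
    | zero => exact fun h => absurd rfl h
    | one =>
      intro _ _ z hz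
      simpa using hz
    | prime_mul p D hp ih =>
      intro h0 hdvd z hz
      have hD0 : D ≠ 0 := fun h => h0 (by rw [h, mul_zero])
      apply ih hD0 (fun q hq hqD => hdvd q hq (hqD.mul_left p))
      apply hstep p hp (hdvd p hp (dvd_mul_right p D))
      push_cast at hz
      rw [← mul_assoc]
      exact hz
  have htop : ∀ z : 𝓞 K, z ∈ C' := by
    intro z
    refine hall (n ^ n * a ^ (n - 1)) (by positivity) ?_ z ?_
    · intro p hp hpD
      rcases (hp.dvd_mul).1 hpD with h | h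
      · exact (hp.dvd_of_dvd_pow h).mul_right a
      · exact (hp.dvd_of_dvd_pow h).mul_left n
    · have := disc_mul_mem ha ha2 hn hK θ hθ z
      rw [zsmul_eq_mul] at this
      refine Submodule.mem_sup_left ?_
      exact_mod_cast this
  -- Step D
  have hcard := card_le_of_gens (G := 𝓞 K ⧸ Subalgebra.toSubmodule A) (J := J)
    (fun j => (j.1 : ℕ)) (fun j => (hW j.1 j.1.2).1.pos) (fun j => Submodule.Quotient.mk (v j)) ?_ ?_
  · refine hcard.trans (le_of_eq ?_)
    rw [Fintype.prod_sigma]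
    simp only [Finset.prod_const, Finset.card_univ, Fintype.card_fin]
    exact Finset.prod_coe_sort W (fun p => p ^ (n / p))
  · rintro ⟨q, i⟩
    rw [← Submodule.Quotient.mk_smul, Submodule.Quotient.mk_eq_zero]
    have h1 : (q : ℕ) • v ⟨q, i⟩ = (θ ^ (n / q) - a) ^ ((q : ℕ) - 1) * θ ^ (i : ℕ) := by
      rw [← hy q, nsmul_eq_mul]
      simp only [v]
      ring
    rw [h1]
    have hθA : θ ∈ A := Algebra.subset_adjoin rfl
    exact A.mul_mem (pow_mem (A.sub_mem (pow_mem hθA _) (A.natCast_mem a)) _) (pow_mem hθA _)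
  · rw [eq_top_iff]
    rintro x -
    obtain ⟨z, rfl⟩ := Submodule.Quotient.mk_surjective _ x
    obtain ⟨c₁, hc₁, c₂, hc₂, rfl⟩ := Submodule.mem_sup.1 (htop z)
    rw [Submodule.Quotient.mk_add, (Submodule.Quotient.mk_eq_zero _).2 hc₁, zero_add]
    induction hc₂ using Submodule.span_induction with
    | mem x hx =>
      obtain ⟨j, rfl⟩ := hx
      exact AddSubgroup.subset_closure ⟨j, rfl⟩
    | zero => exact AddSubgroup.zero_mem _
    | add x y _ _ hx hy =>
      rw [Submodule.Quotient.mk_add]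
      exact AddSubgroup.add_mem _ hx hy
    | smul r x _ hx =>
      rw [Submodule.Quotient.mk_smul]
      exact AddSubgroup.zsmul_mem _ hx r

end Pool.Agent.Y730.RD
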