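import Mathlib
import Pool.Agent.Y730.RD.Index

/-!
# A lower bound for the discriminant of `ℚ(a^{1/n})`
-/

set_option autoImplicit false

open NumberField Module Polynomial

namespace Pool.Agent.Y730.RD

variable {K : Type*} [Field K] [NumberField K]

lemma gen_theta {a n : ℕ} (ha : Squarefree a) (ha2 : 2 ≤ a) (hn : 0 < n)
    (hK : finrank ℚ K = n) (θ : 𝓞 K) (hθ : θ ^ n = (a : 𝓞 K)) :
    LinearIndependent ℤ (fun i : Fin n => θ ^ (i : ℕ)) := by
  have hθK : (θ : K) ^ n = (a : K) := by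
    have := congrArg (algebraMap (𝓞 K) K) hθ
    simpa using this
  obtain ⟨pb, hgen, hdim, -⟩ := exists_pb ha ha2 hn hK (θ : K) hθK
  subst hdim
  have h1 : LinearIndependent ℤ (fun i : Fin pb.dim => pb.gen ^ (i : ℕ)) := by
    have h2 := pb.basis.linearIndependent.restrict_scalars' ℤ
    rwa [PowerBasis.coe_basis] at h2
  rw [hgen] at h1
  let f : 𝓞 K →ₗ[ℤ] K := (Algebra.linearMap (𝓞 K) K).restrictScalars ℤ
  apply LinearIndependent.of_comp f
  convert h1 using 1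
  ext i
  simp [f]

lemma discr_int_cast {ι : Type*} [Fintype ι] [DecidableEq ι] (v : ι → 𝓞 K) :
    ((Algebra.discr ℤ v : ℤ) : ℚ) = Algebra.discr ℚ (fun i => (v i : K)) := by
  rw [Algebra.discr_def, Algebra.discr_def, Int.cast_det]
  congr 1
  ext i j
  rw [Matrix.map_apply, Algebra.traceMatrix_apply, Algebra.traceMatrix_apply,
    Algebra.traceForm_apply, Algebra.traceForm_apply, Algebra.coe_trace_int]
  simp

lemma discr_fin_cast {m n : ℕ} (h : m = n) (x : K) :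
    Algebra.discr ℚ (fun i : Fin m => x ^ (i : ℕ)) =
      Algebra.discr ℚ (fun i : Fin n => x ^ (i : ℕ)) := by
  subst h
  rfl

lemma abs_cast_aux (d D : ℤ) (n a : ℕ)
    (h : |((d ^ 2 * D : ℤ) : ℚ)| = (n : ℚ) ^ n * (a : ℚ) ^ (n - 1)) :
    ((d.natAbs : ℝ)) ^ 2 * |(D : ℝ)| = (n : ℝ) ^ n * (a : ℝ) ^ (n - 1) := by
  have h8 : ((|((d ^ 2 * D : ℤ) : ℚ)| : ℚ) : ℝ) =
      (((n : ℚ) ^ n * (a : ℚ) ^ (n - 1) : ℚ) : ℝ) := by rw [h]
  push_cast at h8
  rw [← h8, Nat.cast_natAbs, Int.cast_abs, abs_mul, abs_pow]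

set_option maxHeartbeats 400000 in
/-- the discriminant of `ℚ(a^{1/n})` -/
theorem disc_bound {a n : ℕ} (ha : Squarefree a) (ha2 : 2 ≤ a) (hn : 0 < n)
    (hK : finrank ℚ K = n) (θ : 𝓞 K) (hθ : θ ^ n = (a : 𝓞 K)) (W : Finset ℕ)
    (hW : ∀ p ∈ W, p.Prime ∧ p ≠ 2 ∧ p ∣ n ∧ ¬ p ^ 2 ∣ n ∧ ¬ p ∣ a ∧ Wieferich a p)
    (hW' : ∀ p, p.Prime → p ∣ n → ¬ p ∣ a → p ∉ W → ¬ Wieferich a p) :
    (n : ℝ) ^ n * (a : ℝ) ^ (n - 1) ≤ |(discr K : ℝ)| * (∏ p ∈ W, (p : ℝ) ^ (n / p)) ^ 2 := by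
  have hli := gen_theta ha ha2 hn hK θ hθ
  have hθK : (θ : K) ^ n = (a : K) := by
    have := congrArg (algebraMap (𝓞 K) K) hθ
    simpa using this
  set N := Subalgebra.toSubmodule (Algebra.adjoin ℤ {θ}) with hN
  have hspan : Submodule.span ℤ (Set.range (fun i : Fin n => θ ^ (i : ℕ))) = N := by
    apply le_antisymm
    · rw [Submodule.span_le]
      rintro _ ⟨i, rfl⟩
      have hθA : θ ∈ Algebra.adjoin ℤ {θ} := Algebra.subset_adjoin rfl
      exact (Algebra.adjoin ℤ {θ}).pow_mem hθA _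
    · intro z hz
      obtain ⟨f, rfl⟩ := (mem_adjoin_iff θ z).1 hz
      let F : ℤ[X] := X ^ n - C (a : ℤ)
      have hFm : F.Monic := monic_X_pow_sub_C _ hn.ne'
      have hFd : F.natDegree = n := natDegree_X_pow_sub_C
      have hF : aeval θ F = 0 := by
        simp only [F]
        rw [map_sub, map_pow, aeval_X, aeval_C, hθ]
        simp
      have hdeg : (f %ₘ F).natDegree < n := by
        rw [← hFd]
        exact natDegree_modByMonic_lt _ hFm (by
          intro h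
          rw [h, natDegree_one] at hFd
          omega)
      have h1 : aeval θ f = aeval θ (f %ₘ F) := by
        conv_lhs => rw [← modByMonic_add_div f F]
        rw [map_add, map_mul, hF, zero_mul, add_zero]
      rw [h1, aeval_eq_sum_range' hdeg]
      refine Submodule.sum_mem _ fun i hi => Submodule.smul_mem _ _ (Submodule.subset_span ?_)
      exact ⟨⟨i, Finset.mem_range.1 hi⟩, rfl⟩
  let bN : Basis (Fin n) ℤ N := (Basis.span hli).map (LinearEquiv.ofEq _ _ hspan)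
  have hbN : (fun i => ((bN i : N) : 𝓞 K)) = fun i : Fin n => θ ^ (i : ℕ) := by
    ext i
    simp [bN, Basis.span_apply]
  have hcardI : Fintype.card (Free.ChooseBasisIndex ℤ (𝓞 K)) = Fintype.card (Fin n) := by
    rw [← Module.finrank_eq_card_chooseBasisIndex, RingOfIntegers.rank, hK, Fintype.card_fin]
  let b : Basis (Fin n) ℤ (𝓞 K) := (RingOfIntegers.basis K).reindex (Fintype.equivOfCardEq hcardI)
  have h1 := Submodule.natAbs_det_basis_change b N bN
  have h2 : b.det ((↑) ∘ bN) = (b.toMatrix (fun i : Fin n => θ ^ (i : ℕ))).det := by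
    rw [← hbN]
    rfl
  rw [h2] at h1
  set C := b.toMatrix (fun i : Fin n => θ ^ (i : ℕ)) with hC
  have h3 := Algebra.discr_of_matrix_vecMul (A := ℤ) b C
  rw [hC, Basis.toMatrix_map_vecMul, ← hC, discr_eq_discr] at h3
  have h4 := discr_int_cast (fun i : Fin n => θ ^ (i : ℕ))
  rw [h3] at h4
  obtain ⟨pb, hgen, hdim, u, hu, hdisc⟩ := exists_pb ha ha2 hn hK (θ : K) hθK
  have h5 : Algebra.discr ℚ pb.basis = Algebra.discr ℚ
      (fun i : Fin n => ((θ ^ (i : ℕ) : 𝓞 K) : K)) := by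
    rw [PowerBasis.coe_basis, hgen, discr_fin_cast hdim]
    congr 1
  rw [← h5, hdisc] at h4
  have h6 : |((C.det ^ 2 * discr K : ℤ) : ℚ)| = (n : ℚ) ^ n * (a : ℚ) ^ (n - 1) := by
    rw [h4, abs_mul, hu, one_mul, abs_of_nonneg (by positivity)]
  have h7 : ((C.det.natAbs : ℝ)) ^ 2 * |(discr K : ℝ)| = (n : ℝ) ^ n * (a : ℝ) ^ (n - 1) := by
    exact abs_cast_aux _ _ n a h6
  rw [h1] at h7
  have h8 := index_bound ha ha2 hn hK θ hθ W hW hW'
  have h9 : ((Nat.card (𝓞 K ⧸ N) : ℕ) : ℝ) ≤ ∏ p ∈ W, (p : ℝ) ^ (n / p) := by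
    exact_mod_cast h8
  rw [← h7, mul_comm]
  exact mul_le_mul_of_nonneg_left (pow_le_pow_left₀ (Nat.cast_nonneg _) h9 2) (abs_nonneg _)

end Pool.Agent.Y730.RD
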