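import Mathlib
import Pool.Agent.H58P.Ht
import Pool.Agent.Y730.RD.Large
import Pool.Agent.Y730.RD.DiscBound

/-!
# Small points of `ℚ(a^{1/n})`
-/

set_option autoImplicit false

open NumberField Module Polynomial Height

namespace Pool.Agent.Y730.RD

open Pool.Agent.H58P (Qb ht)

/-- the primes which divide `n`, do not divide `a` and satisfy `p² ∣ a^(p-1) - 1` -/
noncomputable def wiefPrimes (a n : ℕ) : Finset ℕ := by
  classical exact n.primeFactors.filter (fun p => ¬ p ∣ a ∧ Wieferich a p)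

lemma mem_wiefPrimes {a n p : ℕ} (hn : 0 < n) :
    p ∈ wiefPrimes a n ↔ p.Prime ∧ p ∣ n ∧ ¬ p ∣ a ∧ Wieferich a p := by
  classical
  rw [wiefPrimes, Finset.mem_filter, Nat.mem_primeFactors]
  constructor
  · rintro ⟨⟨h1, h2, h3⟩, h4, h5⟩
    exact ⟨h1, h2, h4, h5⟩
  · rintro ⟨h1, h2, h4, h5⟩
    exact ⟨⟨h1, h2, hn.ne'⟩, h4, h5⟩

/-- admissible exponents -/
def Admissible (a n : ℕ) : Prop :=
  0 < n ∧ (∀ p ∈ wiefPrimes a n, p ≠ 2 ∧ ¬ p ^ 2 ∣ n) ∧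
    40 * ∑ p ∈ wiefPrimes a n, Real.log p / p ≤ Real.log a

lemma wiefPrimes_mul {a n p j : ℕ} (hn : 0 < n) (hp : p.Prime) (hpa : p ∣ a) :
    wiefPrimes a (n * p ^ j) = wiefPrimes a n := by
  ext q
  have hN : 0 < n * p ^ j := Nat.mul_pos hn (pow_pos hp.pos j)
  rw [mem_wiefPrimes hN, mem_wiefPrimes hn]
  constructor
  · rintro ⟨h1, h2, h3, h4⟩
    refine ⟨h1, ?_, h3, h4⟩
    rcases (h1.dvd_mul).1 h2 with h5 | h5
    · exact h5
    · exfalso
      have := (Nat.prime_dvd_prime_iff_eq h1 hp).1 (h1.dvd_of_dvd_pow h5)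
      exact h3 (this ▸ hpa)
  · rintro ⟨h1, h2, h3, h4⟩
    exact ⟨h1, h2.mul_right _, h3, h4⟩

lemma Admissible.mul {a n p j : ℕ} (h : Admissible a n) (hp : p.Prime) (hpa : p ∣ a) :
    Admissible a (n * p ^ j) := by
  obtain ⟨hn, h1, h2⟩ := h
  refine ⟨Nat.mul_pos hn (pow_pos hp.pos j), ?_, ?_⟩
  · rw [wiefPrimes_mul hn hp hpa]
    intro q hq
    refine ⟨(h1 q hq).1, fun h3 => (h1 q hq).2 ?_⟩
    obtain ⟨hqp, hqn, hqa, -⟩ := (mem_wiefPrimes hn).1 hq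
    have hcop : Nat.Coprime (q ^ 2) (p ^ j) := by
      apply Nat.Coprime.pow
      rw [Nat.coprime_primes hqp hp]
      rintro rfl
      exact hqa hpa
    exact hcop.dvd_of_dvd_mul_right h3
  · rw [wiefPrimes_mul hn hp hpa]
    exact h2

/-- large admissible exponents -/
theorem small_large {K : Type*} [Field K] [NumberField K] {a n : ℕ} (ha : Squarefree a)
    (ha2 : 2 ≤ a) (hadm : Admissible a n) (hn100 : 100 ≤ n)
    (hK : finrank ℚ K = n) (θ : 𝓞 K) (hθ : θ ^ n = (a : 𝓞 K)) (α : K) (hα : α ≠ 0)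
    (hH : 4000 * Real.log (mulHeight₁ α) < n) :
    ∃ i j : ℕ, α * (θ : K) ^ j = (θ : K) ^ i ∨ α * (θ : K) ^ j = -(θ : K) ^ i := by
  obtain ⟨hn, h1, h2⟩ := hadm
  have hnr : (0 : ℝ) < n := by exact_mod_cast hn
  have hD := disc_bound ha ha2 hn hK θ hθ (wiefPrimes a n)
    (fun p hp => by
      obtain ⟨h3, h4, h5, h6⟩ := (mem_wiefPrimes hn).1 hp
      exact ⟨h3, (h1 p hp).1, h4, (h1 p hp).2, h5, h6⟩)
    (fun p hp hpn hpa hpW hw => hpW ((mem_wiefPrimes hn).2 ⟨hp, hpn, hpa, hw⟩))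
  refine main_large hK hn100 ha2 θ hθ (gen_theta ha ha2 hn hK θ hθ)
    (∏ p ∈ wiefPrimes a n, (p : ℝ) ^ (n / p)) ?_ ?_ hD α hα hH
  · calc (1 : ℝ) = ∏ p ∈ wiefPrimes a n, (1 : ℝ) := by simp
      _ ≤ _ := Finset.prod_le_prod (fun _ _ => zero_le_one) (fun p hp => by
        have h3 := ((mem_wiefPrimes hn).1 hp).1.one_lt
        exact one_le_pow₀ (by exact_mod_cast h3.le))
  · rw [Real.log_prod (fun p hp => by
      have h3 := ((mem_wiefPrimes hn).1 hp).1.pos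
      positivity)]
    have h3 : ∑ p ∈ wiefPrimes a n, Real.log ((p : ℝ) ^ (n / p)) =
        n * ∑ p ∈ wiefPrimes a n, Real.log p / p := by
      rw [Finset.mul_sum]
      refine Finset.sum_congr rfl fun p hp => ?_
      obtain ⟨h4, h5, -, -⟩ := (mem_wiefPrimes hn).1 hp
      have h6 : (p : ℝ) ≠ 0 := by exact_mod_cast h4.ne_zero
      rw [Real.log_pow, Nat.cast_div h5 h6]
      ring
    rw [h3]
    calc 40 * ((n : ℝ) * ∑ p ∈ wiefPrimes a n, Real.log p / p) =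
        n * (40 * ∑ p ∈ wiefPrimes a n, Real.log p / p) := by ring
      _ ≤ n * Real.log a := mul_le_mul_of_nonneg_left h2 hnr.le

lemma height_rel {K : Type*} [Field K] [NumberField K] (φ : K →+* Qb) (α : K) :
    NumberField.absLogHeight₁ (φ α) = Real.log (mulHeight₁ α) / finrank ℚ K := by
  have h1 := Pool.Agent.Helper259.AbsHt.absLogHeight_eq K φ ![1, α]
  have e : (fun i => φ (![1, α] i)) = ![1, φ α] := by
    funext i
    fin_cases i
    · simp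
    · simp
  rw [e] at h1
  rw [Pool.Agent.H58P.absLogHeight₁_eq, ← logHeight₁_eq_log_mulHeight₁, logHeight₁_eq_logHeight,
    logHeight_swap]
  exact h1

open IntermediateField in
/-- **Small points of `ℚ(a^{1/n})`.** -/
theorem small_points {a n : ℕ} (ha : Squarefree a) (ha2 : 2 ≤ a) (hadm : Admissible a n)
    (θ β : Qb) (hθ : θ ^ n = (a : Qb)) (hβ : β ∈ ℚ⟮θ⟯) (hβ0 : β ≠ 0)
    (hh : NumberField.absLogHeight₁ β < 1 / 4000) :
    ∃ m : ℕ, 0 < m ∧ ∃ k : ℤ, β ^ m = (a : Qb) ^ k := by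
  obtain ⟨p, hp, hpa, -⟩ := exists_prime_exact ha ha2
  set N := n * p ^ 7 with hN
  have hadmN : Admissible a N := hadm.mul hp hpa
  have hN0 : 0 < N := hadmN.1
  have hN100 : 100 ≤ N := by
    have h1 : 2 ^ 7 ≤ p ^ 7 := Nat.pow_le_pow_left hp.two_le 7
    have h2 : 1 * p ^ 7 ≤ n * p ^ 7 := Nat.mul_le_mul_right _ hadm.1
    omega
  obtain ⟨θ', hθ'⟩ := IsAlgClosed.exists_pow_nat_eq θ (pow_pos hp.pos 7)
  have hθN : θ' ^ N = (a : Qb) := by
    rw [hN, mul_comm, pow_mul, hθ', hθ]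
  have hint : IsIntegral ℚ θ' := Pool.Agent.H58P.qb_isIntegral θ'
  have hfd : FiniteDimensional ℚ ℚ⟮θ'⟯ := IntermediateField.adjoin.finiteDimensional hint
  have hnf : NumberField ℚ⟮θ'⟯ := { }
  have hK : finrank ℚ ℚ⟮θ'⟯ = N := by
    rw [IntermediateField.adjoin.finrank hint, minpoly_rat ha ha2 hN0 θ' hθN,
      natDegree_X_pow_sub_C]
  let g : ℚ⟮θ'⟯ := AdjoinSimple.gen ℚ θ'
  have hg : g ^ N = ((a : ℕ) : ℚ⟮θ'⟯) := by
    apply Subtype.ext
    push_cast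
    exact hθN
  let ϑ : 𝓞 ℚ⟮θ'⟯ := ⟨g, theta_integral hN0 g hg⟩
  have hϑ : ϑ ^ N = ((a : ℕ) : 𝓞 ℚ⟮θ'⟯) := by
    apply RingOfIntegers.coe_injective
    rw [map_pow, map_natCast]
    exact hg
  have hθmem : θ ∈ ℚ⟮θ'⟯ := by
    rw [← hθ']
    exact pow_mem (mem_adjoin_simple_self ℚ θ') _
  have hβ' : β ∈ ℚ⟮θ'⟯ := by
    have hle : ℚ⟮θ⟯ ≤ ℚ⟮θ'⟯ := by
      rw [adjoin_simple_le_iff]
      exact hθmem
    exact hle hβ
  let α : ℚ⟮θ'⟯ := ⟨β, hβ'⟩
  have hα : α ≠ 0 := fun h => hβ0 (congrArg Subtype.val h)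
  have hNr : (0 : ℝ) < N := by exact_mod_cast hN0
  have hH : 4000 * Real.log (mulHeight₁ α) < N := by
    have h1 := height_rel (algebraMap ℚ⟮θ'⟯ Qb) α
    have h2 : (algebraMap ℚ⟮θ'⟯ Qb) α = β := rfl
    rw [h2, hK] at h1
    rw [h1, div_lt_iff₀ hNr] at hh
    linarith
  obtain ⟨i, j, hij⟩ := small_large ha ha2 hadmN hN100 hK ϑ hϑ α hα hH
  have hij2 : β * θ' ^ j = θ' ^ i ∨ β * θ' ^ j = -θ' ^ i := by
    rcases hij with h | h
    · left
      exact congrArg (algebraMap ℚ⟮θ'⟯ Qb) h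
    · right
      have := congrArg (algebraMap ℚ⟮θ'⟯ Qb) h
      rw [map_neg] at this
      exact this
  have ha0 : (a : Qb) ≠ 0 := by
    have : a ≠ 0 := by omega
    exact_mod_cast this
  have h3 : (β * θ' ^ j) ^ (2 * N) = (θ' ^ i) ^ (2 * N) := by
    rcases hij2 with h | h
    · rw [h]
    · rw [h, pow_mul, neg_sq, ← pow_mul]
  have h4 : β ^ (2 * N) * (a : Qb) ^ (2 * j) = (a : Qb) ^ (2 * i) := by
    have e1 : (θ' ^ j) ^ (2 * N) = (a : Qb) ^ (2 * j) := by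
      rw [← pow_mul, ← hθN, ← pow_mul]
      congr 1
      ring
    have e2 : (θ' ^ i) ^ (2 * N) = (a : Qb) ^ (2 * i) := by
      rw [← pow_mul, ← hθN, ← pow_mul]
      congr 1
      ring
    rw [← e1, ← e2, ← mul_pow]
    exact h3
  refine ⟨2 * N, by omega, (2 * i : ℕ) - (2 * j : ℕ), ?_⟩
  rw [zpow_sub₀ ha0, zpow_natCast, zpow_natCast, ← h4, mul_div_cancel_right₀ _ (pow_ne_zero _ ha0)]

end Pool.Agent.Y730.RD
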